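import Mathlib
import Pool.Agent.H.MP_59b15d_al.sym.Artin

set_option autoImplicit false

/-!
Initial products, the braid generators, the rotations `τ_k` and the pushes `A_k`.
-/

namespace Pool.MP_59b15d_al.Sym

/-- the generators, indexed by all natural numbers -/
def xx (N m : ℕ) : FF N := if h : m < N then FreeGroup.of ⟨m, h⟩ else 1

/-- the product of the first `m` generators -/
def pp (N : ℕ) : ℕ → FF N
  | 0 => 1
  | m + 1 => pp N m * xx N m

variable {N : ℕ}

theorem pp_zero : pp N 0 = 1 := rfl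

theorem pp_succ (m : ℕ) : pp N (m + 1) = pp N m * xx N m := rfl

theorem xx_of (j : Fin N) : xx N (j : ℕ) = FreeGroup.of j := by
  unfold xx
  rw [dif_pos j.isLt]

theorem xx_ge {m : ℕ} (h : N ≤ m) : xx N m = 1 := by
  unfold xx
  rw [dif_neg (by omega)]

theorem xx_pp (m : ℕ) : xx N m = (pp N m)⁻¹ * pp N (m + 1) := by
  rw [pp_succ, inv_mul_cancel_left]

theorem pp_ge {m : ℕ} (h : N ≤ m) : pp N m = pp N N := by
  induction m, h using Nat.le_induction with
  | base => rfl
  | succ m hm ih => rw [pp_succ, ih, xx_ge hm, mul_one]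

/-- homomorphisms with given values at the initial products -/
def hmq (N : ℕ) {G : Type*} [Group G] (q : ℕ → G) : FF N →* G :=
  FreeGroup.lift fun j : Fin N => (q j)⁻¹ * q (j + 1)

theorem hmq_pp {G : Type*} [Group G] {q : ℕ → G} (h0 : q 0 = 1) {m : ℕ} (hm : m ≤ N) :
    hmq N q (pp N m) = q m := by
  induction m with
  | zero => rw [pp_zero, map_one, h0]
  | succ m ih =>
    have h1 : hmq N q (xx N m) = (q m)⁻¹ * q (m + 1) := by
      have h2 := xx_of (⟨m, hm⟩ : Fin N)
      simp only at h2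
      rw [h2]
      unfold hmq
      rw [FreeGroup.lift_apply_of]
    rw [pp_succ, map_mul, ih (by omega), h1, mul_inv_cancel_left]

theorem ext_pp {G : Type*} [Group G] {f g : FF N →* G}
    (h : ∀ m, m ≤ N → f (pp N m) = g (pp N m)) : f = g := by
  ext j
  rw [← xx_of j, xx_pp, map_mul, map_inv, map_mul, map_inv, h _ (by omega), h _ (by omega)]

theorem au_ext {f g : MulAut (FF N)} (h : ∀ m, m ≤ N → f (pp N m) = g (pp N m)) : f = g := by
  apply MulEquiv.toMonoidHom_injective
  exact ext_pp h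

/-- automorphisms with given values at the initial products -/
def auq (N : ℕ) (q q' : ℕ → FF N) (h0 : q 0 = 1) (h0' : q' 0 = 1)
    (h : ∀ m, m ≤ N → hmq N q (q' m) = pp N m) (h' : ∀ m, m ≤ N → hmq N q' (q m) = pp N m) :
    MulAut (FF N) :=
  MonoidHom.toMulEquiv (hmq N q) (hmq N q')
    (ext_pp fun m hm => by
      rw [MonoidHom.comp_apply, hmq_pp h0 hm, h' m hm]
      rfl)
    (ext_pp fun m hm => by
      rw [MonoidHom.comp_apply, hmq_pp h0' hm, h m hm]
      rfl)

theorem auq_pp {q q' : ℕ → FF N} (h0 : q 0 = 1) (h0' : q' 0 = 1)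
    (h : ∀ m, m ≤ N → hmq N q (q' m) = pp N m) (h' : ∀ m, m ≤ N → hmq N q' (q m) = pp N m)
    {m : ℕ} (hm : m ≤ N) : auq N q q' h0 h0' h h' (pp N m) = q m := hmq_pp h0 hm

/-! ### The braid generators -/

def sq (N i m : ℕ) : FF N :=
  if m = i + 1 then pp N (i + 2) * (pp N (i + 1))⁻¹ * pp N i else pp N m

def sq' (N i m : ℕ) : FF N :=
  if m = i + 1 then pp N i * (pp N (i + 1))⁻¹ * pp N (i + 2) else pp N m

theorem sq_zero (i : ℕ) : sq N i 0 = 1 := by
  unfold sq
  rw [if_neg (by omega), pp_zero]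

theorem sq'_zero (i : ℕ) : sq' N i 0 = 1 := by
  unfold sq'
  rw [if_neg (by omega), pp_zero]

theorem sq_ne {i m : ℕ} (h : m ≠ i + 1) : sq N i m = pp N m := by
  unfold sq
  rw [if_neg h]

theorem sq'_ne {i m : ℕ} (h : m ≠ i + 1) : sq' N i m = pp N m := by
  unfold sq'
  rw [if_neg h]

theorem sq_eq (i : ℕ) : sq N i (i + 1) = pp N (i + 2) * (pp N (i + 1))⁻¹ * pp N i := by
  unfold sq
  rw [if_pos rfl]

theorem sq'_eq (i : ℕ) : sq' N i (i + 1) = pp N i * (pp N (i + 1))⁻¹ * pp N (i + 2) := by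
  unfold sq'
  rw [if_pos rfl]

/-- the braid generator `σ_i` -/
def sg (N i : ℕ) (hi : i + 1 < N) : MulAut (FF N) :=
  auq N (sq N i) (sq' N i) (sq_zero i) (sq'_zero i)
    (fun m hm => by
      by_cases h : m = i + 1
      · subst h
        rw [sq'_eq, map_mul, map_mul, map_inv, hmq_pp (sq_zero i) (by omega),
          hmq_pp (sq_zero i) (by omega), hmq_pp (sq_zero i) (by omega), sq_eq, sq_ne (by omega),
          sq_ne (by omega)]
        group
      · rw [sq'_ne h, hmq_pp (sq_zero i) hm, sq_ne h])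
    (fun m hm => by
      by_cases h : m = i + 1
      · subst h
        rw [sq_eq, map_mul, map_mul, map_inv, hmq_pp (sq'_zero i) (by omega),
          hmq_pp (sq'_zero i) (by omega), hmq_pp (sq'_zero i) (by omega), sq'_eq,
          sq'_ne (by omega), sq'_ne (by omega)]
        group
      · rw [sq_ne h, hmq_pp (sq'_zero i) hm, sq'_ne h])

theorem sg_eq {i : ℕ} (hi : i + 1 < N) :
    sg N i hi (pp N (i + 1)) = pp N (i + 2) * (pp N (i + 1))⁻¹ * pp N i := by
  unfold sg
  rw [auq_pp _ _ _ _ (by omega), sq_eq]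

theorem sg_ne {i : ℕ} (hi : i + 1 < N) {m : ℕ} (h : m ≠ i + 1) :
    sg N i hi (pp N m) = pp N m := by
  by_cases hm : m ≤ N
  · unfold sg
    rw [auq_pp _ _ _ _ hm, sq_ne h]
  · rw [pp_ge (by omega)]
    unfold sg
    rw [auq_pp _ _ _ _ le_rfl, sq_ne (by omega)]

theorem isSig_pp {i j : Fin N} (hij : (j : ℕ) = i + 1) {f : MulAut (FF N)} (hf : IsSig i j f)
    (m : ℕ) : f (pp N m) = sq N i m := by
  obtain ⟨h1, h2, h3⟩ := hf
  have hN : (i : ℕ) + 1 < N := by
    rw [← hij]
    exact j.isLt
  have hx : ∀ k : ℕ, k ≠ i → k ≠ i + 1 → f (xx N k) = xx N k := by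
    intro k hk hk'
    by_cases hkN : k < N
    · have h4 := xx_of (⟨k, hkN⟩ : Fin N)
      simp only at h4
      rw [h4]
      refine h3 _ ?_ ?_
      · intro h
        exact hk (congrArg Fin.val h)
      · intro h
        apply hk'
        rw [← hij]
        exact congrArg Fin.val h
    · rw [xx_ge (by omega), map_one]
  have hi : f (xx N i) = xx N i * xx N (i + 1) * (xx N i)⁻¹ := by
    rw [← hij, xx_of, xx_of, h1]
  have hi1 : f (xx N (i + 1)) = xx N i := by
    rw [← hij, xx_of, xx_of, h2]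
  have hle : ∀ k, k ≤ (i : ℕ) → f (pp N k) = pp N k := by
    intro k
    induction k with
    | zero => intro _; rw [pp_zero, map_one]
    | succ k ih =>
      intro hk
      rw [pp_succ, map_mul, ih (by omega), hx k (by omega) (by omega)]
  have he : f (pp N (i + 1)) = pp N (i + 2) * (pp N (i + 1))⁻¹ * pp N i := by
    rw [pp_succ, map_mul, hle i le_rfl, hi, pp_succ (i + 1 : ℕ), pp_succ (i : ℕ)]
    group
  have he2 : f (pp N (i + 2)) = pp N (i + 2) := by
    rw [pp_succ, map_mul, he, hi1, xx_pp (i : ℕ), pp_succ (i + 1 : ℕ)]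
    group
  have hge : ∀ k, (i : ℕ) + 2 ≤ k → f (pp N k) = pp N k := by
    intro k hk
    induction k, hk using Nat.le_induction with
    | base => exact he2
    | succ k hk ih => rw [pp_succ, map_mul, ih, hx k (by omega) (by omega)]
  rcases lt_trichotomy m (i + 1) with h | h | h
  · rw [hle m (by omega), sq_ne (by omega)]
  · rw [h, he, sq_eq]
  · rw [hge m (by omega), sq_ne (by omega)]

theorem isSig_sg {i j : Fin N} (hij : (j : ℕ) = i + 1) {f : MulAut (FF N)} (hf : IsSig i j f) :
    f = sg N i (by rw [← hij]; exact j.isLt) := by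
  apply au_ext
  intro m hm
  rw [isSig_pp hij hf m]
  unfold sg
  rw [auq_pp _ _ _ _ hm]

theorem sg_isSig {i : ℕ} (hi : i + 1 < N) :
    IsSig (⟨i, by omega⟩ : Fin N) ⟨i + 1, hi⟩ (sg N i hi) := by
  have h1 : ∀ k : Fin N, FreeGroup.of k = (pp N k)⁻¹ * pp N (k + 1) := by
    intro k
    rw [← xx_of, xx_pp]
  refine ⟨?_, ?_, ?_⟩
  · rw [h1, h1]
    simp only [map_mul, map_inv, sg_eq]
    rw [sg_ne hi (by omega)]
    group
  · rw [h1, h1]
    simp only [map_mul, map_inv, sg_eq]
    rw [sg_ne hi (by omega)]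
    group
  · intro k hk hk'
    have hk1 : (k : ℕ) ≠ i := fun h => hk (Fin.ext h)
    have hk2 : (k : ℕ) ≠ i + 1 := fun h => hk' (Fin.ext h)
    rw [h1, map_mul, map_inv, sg_ne hi hk2, sg_ne hi (by omega)]

theorem sg_mem {i : ℕ} (hi : i + 1 < N) : sg N i hi ∈ Br N :=
  Subgroup.subset_closure ⟨⟨i, by omega⟩, ⟨i + 1, hi⟩, rfl, sg_isSig hi⟩

/-- the braid group fixes the product of all generators -/
theorem br_fix {f : MulAut (FF N)} (hf : f ∈ Br N) : f (pp N N) = pp N N := by
  let T : Subgroup (MulAut (FF N)) :=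
    { carrier := {f | f (pp N N) = pp N N}
      mul_mem' := by
        intro f g hf hg
        change f (g (pp N N)) = pp N N
        rw [hg, hf]
      one_mem' := rfl
      inv_mem' := by
        intro f hf
        change f⁻¹ (pp N N) = pp N N
        have h1 : f⁻¹ (f (pp N N)) = pp N N := by
          rw [← MulAut.mul_apply, inv_mul_cancel, MulAut.one_apply]
        have h2 : f (pp N N) = pp N N := hf
        rwa [h2] at h1 }
  have h : Br N ≤ T := by
    unfold Br
    rw [Subgroup.closure_le]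
    rintro f ⟨i, j, hij, hf⟩
    change f (pp N N) = pp N N
    rw [isSig_sg hij hf]
    exact sg_ne _ (by
      have := j.isLt
      omega)
  exact h hf

theorem xn_pp : xn N = (pp N N)⁻¹ := by
  unfold xn
  congr 1
  have key : ∀ m, m ≤ N → ((List.ofFn fun j : Fin N => FreeGroup.of j).take m).prod = pp N m := by
    intro m
    induction m with
    | zero => intro _; rw [List.take_zero, List.prod_nil, pp_zero]
    | succ m ih =>
      intro hm
      have hlen : m < (List.ofFn fun j : Fin N => FreeGroup.of j).length := by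
        rw [List.length_ofFn]
        omega
      rw [List.prod_take_succ _ m hlen, ih (by omega), pp_succ]
      congr 1
      rw [List.getElem_ofFn]
      exact (xx_of (⟨m, hm⟩ : Fin N)).symm
  have h := key N le_rfl
  rwa [List.take_of_length_le (by rw [List.length_ofFn])] at h

end Pool.MP_59b15d_al.Sym
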