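import Mathlib
import Pool.Agent.H.MP_59b15d_al.h94s.Ga1

set_option autoImplicit false

/-!
The rotations `τ_k` and the pushes `A_k`, and their relations with the braid generators.
-/

namespace Pool.MP_59b15d_al.Sym

variable {n : ℕ}

/-- `h = p_{n+1} p_n⁻¹` -/
def hh (n : ℕ) : FF (n + 1) := pp (n + 1) (n + 1) * (pp (n + 1) n)⁻¹

theorem hh_pp : hh n * pp (n + 1) n = pp (n + 1) (n + 1) := by
  unfold hh
  rw [inv_mul_cancel_right]

def tq (n k m : ℕ) : FF (n + 1) :=
  if k < m ∧ m ≤ n then hh n * pp (n + 1) (m - 1) else pp (n + 1) m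

def tq' (n k m : ℕ) : FF (n + 1) :=
  if k < m ∧ m ≤ n then pp (n + 1) k * (pp (n + 1) (k + 1))⁻¹ * pp (n + 1) (m + 1)
    else pp (n + 1) m

theorem tq_zero (k : ℕ) : tq n k 0 = 1 := by
  unfold tq
  rw [if_neg (by omega), pp_zero]

theorem tq'_zero (k : ℕ) : tq' n k 0 = 1 := by
  unfold tq'
  rw [if_neg (by omega), pp_zero]

theorem tq_in {k m : ℕ} (h : k < m) (h' : m ≤ n + 1) :
    tq n k m = hh n * pp (n + 1) (m - 1) := by
  unfold tq
  by_cases hm : m ≤ n
  · rw [if_pos ⟨h, hm⟩]
  · rw [if_neg (by omega)]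
    have : m = n + 1 := by omega
    subst this
    rw [Nat.add_sub_cancel, hh_pp]

theorem tq_out {k m : ℕ} (h : m ≤ k) : tq n k m = pp (n + 1) m := by
  unfold tq
  rw [if_neg (by omega)]

theorem tq'_in {k m : ℕ} (h : k ≤ m) (h' : m ≤ n) :
    tq' n k m = pp (n + 1) k * (pp (n + 1) (k + 1))⁻¹ * pp (n + 1) (m + 1) := by
  unfold tq'
  by_cases hm : k < m
  · rw [if_pos ⟨hm, h'⟩]
  · rw [if_neg (by omega)]
    have : m = k := by omega
    subst this
    rw [inv_mul_cancel_right]

theorem tq'_out {k m : ℕ} (h : m ≤ k ∨ n < m) : tq' n k m = pp (n + 1) m := by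
  unfold tq'
  rw [if_neg (by omega)]

/-- the rotation `τ_k = σ_{n-1} ⋯ σ_k` -/
def tau (n k : ℕ) : MulAut (FF (n + 1)) :=
  auq (n + 1) (tq n k) (tq' n k) (tq_zero k) (tq'_zero k)
    (fun m hm => by
      by_cases h : k < m ∧ m ≤ n
      · rw [tq'_in (by omega) h.2, map_mul, map_mul, map_inv, hmq_pp (tq_zero k) (by omega),
          hmq_pp (tq_zero k) (by omega), hmq_pp (tq_zero k) (by omega), tq_out le_rfl,
          tq_in (by omega) (by omega), tq_in (by omega) (by omega), Nat.add_sub_cancel,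
          Nat.add_sub_cancel]
        group
      · rw [tq'_out (by omega), hmq_pp (tq_zero k) hm]
        by_cases hk : m ≤ k
        · rw [tq_out hk]
        · have : m = n + 1 := by omega
          subst this
          rw [tq_in (by omega) le_rfl, Nat.add_sub_cancel, hh_pp])
    (fun m hm => by
      by_cases h : k < m ∧ m ≤ n
      · rw [tq_in h.1 (by omega)]
        unfold hh
        rw [map_mul, map_mul, map_inv, hmq_pp (tq'_zero k) le_rfl,
          hmq_pp (tq'_zero k) (by omega), hmq_pp (tq'_zero k) (by omega), tq'_out (by omega),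
          tq'_in (by omega) (by omega), tq'_in (by omega) (by omega)]
        have : m - 1 + 1 = m := by omega
        rw [this]
        group
      · by_cases hk : m ≤ k
        · rw [tq_out hk, hmq_pp (tq'_zero k) hm, tq'_out (by omega)]
        · have : m = n + 1 := by omega
          subst this
          rw [tq_in (by omega) le_rfl, Nat.add_sub_cancel, hh_pp, hmq_pp (tq'_zero k) le_rfl,
            tq'_out (by omega)])

theorem tau_in {k m : ℕ} (h : k < m) (h' : m ≤ n + 1) :
    tau n k (pp (n + 1) m) = hh n * pp (n + 1) (m - 1) := by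
  unfold tau
  rw [auq_pp _ _ _ _ h', tq_in h h']

theorem tau_out {k m : ℕ} (h : m ≤ k) (h' : m ≤ n + 1) :
    tau n k (pp (n + 1) m) = pp (n + 1) m := by
  unfold tau
  rw [auq_pp _ _ _ _ h', tq_out h]

theorem tau_last : tau n n = 1 := by
  apply au_ext
  intro m hm
  rw [MulAut.one_apply]
  by_cases h : m ≤ n
  · rw [tau_out h hm]
  · have : m = n + 1 := by omega
    subst this
    rw [tau_in (by omega) le_rfl, Nat.add_sub_cancel, hh_pp]

/-! ### The pushes -/

/-- `d_k = p_{k+1} p_k⁻¹` -/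
def dk (n k : ℕ) : FF (n + 1) := pp (n + 1) (k + 1) * (pp (n + 1) k)⁻¹

def gk (n k : ℕ) : FF (n + 1) := hh n * dk n k * (hh n)⁻¹ * (dk n k)⁻¹

def gk' (n k : ℕ) : FF (n + 1) := (dk n k)⁻¹ * (hh n)⁻¹ * dk n k * hh n

def aq (n k m : ℕ) : FF (n + 1) :=
  if k < m ∧ m ≤ n then gk n k * pp (n + 1) m else pp (n + 1) m

def aq' (n k m : ℕ) : FF (n + 1) :=
  if k < m ∧ m ≤ n then gk' n k * pp (n + 1) m else pp (n + 1) m

theorem aq_zero (k : ℕ) : aq n k 0 = 1 := by
  unfold aq
  rw [if_neg (by omega), pp_zero]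

theorem aq'_zero (k : ℕ) : aq' n k 0 = 1 := by
  unfold aq'
  rw [if_neg (by omega), pp_zero]

theorem aq_in {k m : ℕ} (h : k < m) (h' : m ≤ n) : aq n k m = gk n k * pp (n + 1) m := by
  unfold aq
  rw [if_pos ⟨h, h'⟩]

theorem aq_out {k m : ℕ} (h : m ≤ k ∨ n < m) : aq n k m = pp (n + 1) m := by
  unfold aq
  rw [if_neg (by omega)]

theorem aq'_in {k m : ℕ} (h : k < m) (h' : m ≤ n) : aq' n k m = gk' n k * pp (n + 1) m := by
  unfold aq'
  rw [if_pos ⟨h, h'⟩]

theorem aq'_out {k m : ℕ} (h : m ≤ k ∨ n < m) : aq' n k m = pp (n + 1) m := by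
  unfold aq'
  rw [if_neg (by omega)]

theorem aq_inv {k m : ℕ} (hk : k < n) (h : k < m) (h' : m ≤ n) :
    hmq (n + 1) (aq n k) (gk' n k * pp (n + 1) m) = pp (n + 1) m := by
  have e : ∀ m, m ≤ n + 1 → hmq (n + 1) (aq n k) (pp (n + 1) m) = aq n k m :=
    fun m hm => hmq_pp (aq_zero k) hm
  have q1 : aq n k (n + 1) = pp (n + 1) (n + 1) := aq_out (by omega)
  have q2 : aq n k n = gk n k * pp (n + 1) n := aq_in hk le_rfl
  have q3 : aq n k (k + 1) = gk n k * pp (n + 1) (k + 1) := aq_in (by omega) (by omega)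
  have q4 : aq n k k = pp (n + 1) k := aq_out (by omega)
  have q5 : aq n k m = gk n k * pp (n + 1) m := aq_in h h'
  unfold gk' dk hh
  simp only [map_mul, map_inv]
  rw [e (n + 1) le_rfl, e (k + 1) (by omega), e k (by omega), e n (by omega), e m (by omega), q1,
    q2, q3, q4, q5]
  unfold gk dk hh
  group

theorem aq'_inv {k m : ℕ} (hk : k < n) (h : k < m) (h' : m ≤ n) :
    hmq (n + 1) (aq' n k) (gk n k * pp (n + 1) m) = pp (n + 1) m := by
  have e : ∀ m, m ≤ n + 1 → hmq (n + 1) (aq' n k) (pp (n + 1) m) = aq' n k m :=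
    fun m hm => hmq_pp (aq'_zero k) hm
  have q1 : aq' n k (n + 1) = pp (n + 1) (n + 1) := aq'_out (by omega)
  have q2 : aq' n k n = gk' n k * pp (n + 1) n := aq'_in hk le_rfl
  have q3 : aq' n k (k + 1) = gk' n k * pp (n + 1) (k + 1) := aq'_in (by omega) (by omega)
  have q4 : aq' n k k = pp (n + 1) k := aq'_out (by omega)
  have q5 : aq' n k m = gk' n k * pp (n + 1) m := aq'_in h h'
  unfold gk dk hh
  simp only [map_mul, map_inv]
  rw [e (n + 1) le_rfl, e (k + 1) (by omega), e k (by omega), e n (by omega), e m (by omega), q1,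
    q2, q3, q4, q5]
  unfold gk' dk hh
  group

/-- the push `A_k` of the last puncture around the puncture `k` -/
def ak (n k : ℕ) (hk : k < n) : MulAut (FF (n + 1)) :=
  auq (n + 1) (aq n k) (aq' n k) (aq_zero k) (aq'_zero k)
    (fun m hm => by
      by_cases h : k < m ∧ m ≤ n
      · rw [aq'_in h.1 h.2, aq_inv hk h.1 h.2]
      · rw [aq'_out (by omega), hmq_pp (aq_zero k) hm, aq_out (by omega)])
    (fun m hm => by
      by_cases h : k < m ∧ m ≤ n
      · rw [aq_in h.1 h.2, aq'_inv hk h.1 h.2]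
      · rw [aq_out (by omega), hmq_pp (aq'_zero k) hm, aq'_out (by omega)])

theorem ak_in {k m : ℕ} (hk : k < n) (h : k < m) (h' : m ≤ n) :
    ak n k hk (pp (n + 1) m) = gk n k * pp (n + 1) m := by
  unfold ak
  rw [auq_pp _ _ _ _ (by omega), aq_in h h']

theorem ak_out {k m : ℕ} (hk : k < n) (h : m ≤ k ∨ m = n + 1) :
    ak n k hk (pp (n + 1) m) = pp (n + 1) m := by
  unfold ak
  rw [auq_pp _ _ _ _ (by omega), aq_out (by omega)]

/-! ### Relations -/

/-- (iii) -/
theorem rel3 {i : ℕ} (hi : i < n) : tau n (i + 1) * sg (n + 1) i (by omega) = tau n i := by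
  apply au_ext
  intro m hm
  rw [MulAut.mul_apply]
  by_cases h : m = i + 1
  · subst h
    rw [sg_eq, map_mul, map_mul, map_inv, tau_in (by omega) (by omega),
      tau_out le_rfl (by omega), tau_out (by omega) (by omega), tau_in (by omega) (by omega),
      Nat.add_sub_cancel]
    have : i + 2 - 1 = i + 1 := by omega
    rw [this]
    group
  · rw [sg_ne _ h]
    by_cases h1 : m ≤ i
    · rw [tau_out (by omega) hm, tau_out h1 hm]
    · rw [tau_in (by omega) hm, tau_in (by omega) hm]

/-- (iv) -/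
theorem rel4 {k : ℕ} (hk : k < n) :
    tau n k * sg (n + 1) k (by omega) = ak n k hk * tau n (k + 1) := by
  apply au_ext
  intro m hm
  rw [MulAut.mul_apply, MulAut.mul_apply]
  by_cases h : m = k + 1
  · subst h
    rw [sg_eq, map_mul, map_mul, map_inv, tau_in (by omega) (by omega),
      tau_in (by omega) (by omega), tau_out le_rfl (by omega), tau_out le_rfl (by omega),
      ak_in hk (by omega) (by omega), Nat.add_sub_cancel]
    have : k + 2 - 1 = k + 1 := by omega
    rw [this]
    unfold gk dk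
    group
  · rw [sg_ne _ h]
    by_cases h1 : m ≤ k
    · rw [tau_out h1 hm, tau_out (by omega) hm, ak_out hk (Or.inl h1)]
    · rw [tau_in (by omega) hm, tau_in (by omega) hm]
      unfold hh
      simp only [map_mul, map_inv]
      rw [ak_out hk (Or.inr rfl), ak_in hk (by omega) le_rfl, ak_in hk (by omega) (by omega)]
      group

/-- (i) -/
theorem rel1 {k j : ℕ} (hkj : k ≤ j) (hj : j + 1 < n) :
    tau n k * sg (n + 1) (j + 1) (by omega) = sg (n + 1) j (by omega) * tau n k := by
  have hs : sg (n + 1) j (by omega) (hh n) = hh n := by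
    unfold hh
    rw [map_mul, map_inv, sg_ne _ (by omega), sg_ne _ (by omega)]
  apply au_ext
  intro m hm
  rw [MulAut.mul_apply, MulAut.mul_apply]
  by_cases h : m = j + 1 + 1
  · subst h
    rw [sg_eq, map_mul, map_mul, map_inv, tau_in (by omega) (by omega),
      tau_in (by omega) (by omega), tau_in (by omega) (by omega), map_mul, hs,
      Nat.add_sub_cancel, sg_eq, Nat.add_sub_cancel]
    have : j + 1 + 2 - 1 = j + 2 := by omega
    rw [this]
    group
  · rw [sg_ne _ h]
    by_cases h1 : m ≤ k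
    · rw [tau_out h1 hm, sg_ne _ (by omega)]
    · rw [tau_in (by omega) hm, map_mul, hs, sg_ne _ (by omega)]

/-- (ii) -/
theorem rel2 {k i : ℕ} (hik : i + 1 < k) (hk : k ≤ n) :
    tau n k * sg (n + 1) i (by omega) = sg (n + 1) i (by omega) * tau n k := by
  have hs : sg (n + 1) i (by omega) (hh n) = hh n := by
    unfold hh
    rw [map_mul, map_inv, sg_ne _ (by omega), sg_ne _ (by omega)]
  apply au_ext
  intro m hm
  rw [MulAut.mul_apply, MulAut.mul_apply]
  by_cases h : m = i + 1
  · subst h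
    rw [sg_eq, map_mul, map_mul, map_inv, tau_out (by omega) (by omega),
      tau_out (by omega) (by omega), tau_out (by omega) (by omega), sg_eq]
  · rw [sg_ne _ h]
    by_cases h1 : m ≤ k
    · rw [tau_out h1 hm, sg_ne _ h]
    · rw [tau_in (by omega) hm, map_mul, hs, sg_ne _ (by omega)]

theorem sg_hh {i : ℕ} (hi : i + 1 < n) : sg (n + 1) i (by omega) (hh n) = hh n := by
  unfold hh
  rw [map_mul, map_inv, sg_ne _ (by omega), sg_ne _ (by omega)]

theorem sg_gk {i k : ℕ} (hi : i + 1 < n) (h1 : k ≠ i) (h2 : k ≠ i + 1) :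
    sg (n + 1) i (by omega) (gk n k) = gk n k := by
  unfold gk dk
  simp only [map_mul, map_inv]
  rw [sg_hh hi, sg_ne _ (by omega), sg_ne _ (by omega)]

theorem sg_gk_eq {i : ℕ} (hi : i + 1 < n) :
    sg (n + 1) i (by omega) (gk n i) = gk n (i + 1) := by
  unfold gk dk
  simp only [map_mul, map_inv]
  rw [sg_hh hi, sg_eq, sg_ne _ (by omega)]
  group

/-- (a) -/
theorem relA {i k : ℕ} (hi : i + 1 < n) (hk : k < n) (h1 : k ≠ i) (h2 : k ≠ i + 1) :
    sg (n + 1) i (by omega) * ak n k hk = ak n k hk * sg (n + 1) i (by omega) := by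
  apply au_ext
  intro m hm
  rw [MulAut.mul_apply, MulAut.mul_apply]
  by_cases hin : k < m ∧ m ≤ n
  · rw [ak_in hk hin.1 hin.2, map_mul, sg_gk hi h1 h2]
    by_cases h : m = i + 1
    · subst h
      rw [sg_eq, map_mul, map_mul, map_inv, ak_in hk (by omega) (by omega),
        ak_in hk (by omega) (by omega), ak_in hk (by omega) (by omega)]
      group
    · rw [sg_ne _ h, ak_in hk hin.1 hin.2]
  · rw [ak_out hk (by omega)]
    by_cases h : m = i + 1
    · subst h
      rw [sg_eq, map_mul, map_mul, map_inv, ak_out hk (by omega),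
        ak_out hk (by omega), ak_out hk (by omega)]
    · rw [sg_ne _ h, ak_out hk (by omega)]

/-- (b) -/
theorem relB {i : ℕ} (hi : i + 1 < n) :
    sg (n + 1) i (by omega) * ak n i (by omega) =
      ak n (i + 1) hi * sg (n + 1) i (by omega) := by
  apply au_ext
  intro m hm
  rw [MulAut.mul_apply, MulAut.mul_apply]
  by_cases h : m = i + 1
  · subst h
    rw [ak_in (by omega) (by omega) (by omega), map_mul, sg_gk_eq hi, sg_eq, map_mul, map_mul,
      map_inv, ak_in hi (by omega) (by omega), ak_out hi (by omega), ak_out hi (by omega)]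
    group
  · by_cases hin : i < m ∧ m ≤ n
    · rw [ak_in (by omega) hin.1 hin.2, map_mul, sg_gk_eq hi, sg_ne _ h,
        ak_in hi (by omega) hin.2]
    · rw [ak_out (by omega) (by omega), sg_ne _ h, ak_out hi (by omega)]

/-- (c) -/
theorem relC {i : ℕ} (hi : i + 1 < n) :
    sg (n + 1) i (by omega) * (ak n i (by omega) * ak n (i + 1) hi) =
      ak n i (by omega) * ak n (i + 1) hi * sg (n + 1) i (by omega) := by
  have hb : ∀ m, i + 2 ≤ m → m ≤ n → ak n i (by omega) (ak n (i + 1) hi (pp (n + 1) m)) =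
      hh n * (pp (n + 1) (i + 2) * (pp (n + 1) i)⁻¹) * (hh n)⁻¹ *
        (pp (n + 1) (i + 2) * (pp (n + 1) i)⁻¹)⁻¹ * pp (n + 1) m := by
    intro m h1 h2
    rw [ak_in hi (by omega) h2]
    unfold gk dk hh
    simp only [map_mul, map_inv]
    rw [ak_out _ (Or.inr rfl), ak_in _ (by omega) le_rfl, ak_in _ (by omega) (by omega),
      ak_in _ (by omega) (by omega), ak_in _ (by omega) h2]
    unfold gk dk hh
    group
  apply au_ext
  intro m hm
  simp only [MulAut.mul_apply]
  by_cases h : m = i + 1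
  · subst h
    rw [ak_out hi (by omega), ak_in _ (by omega) (by omega), map_mul, sg_gk_eq hi, sg_eq]
    simp only [map_mul, map_inv]
    rw [hb (i + 2) le_rfl (by omega), ak_out hi (by omega), ak_out hi (by omega),
      ak_in _ (by omega) (by omega), ak_out _ (by omega)]
    unfold gk dk hh
    group
  · by_cases hin : i < m ∧ m ≤ n
    · rw [hb m (by omega) hin.2, sg_ne _ h, hb m (by omega) hin.2]
      simp only [map_mul, map_inv]
      rw [sg_hh hi, sg_ne _ (by omega), sg_ne _ (by omega), sg_ne _ h]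
    · rw [ak_out hi (by omega), ak_out _ (by omega), sg_ne _ h, ak_out hi (by omega),
        ak_out _ (by omega)]

end Pool.MP_59b15d_al.Sym
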