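import Mathlib
import Pool.Agent.H.MP_59b15d_al.h94s.Ga2

set_option autoImplicit false

/-!
The decomposition of the stabiliser of the last puncture.
-/

namespace Pool.MP_59b15d_al.Sym

variable {n : ℕ}

/-- killing the last generator -/
def kap (n : ℕ) : FF (n + 1) →* FF n := FreeGroup.lift fun j : Fin (n + 1) => xx n j

/-- the inclusion -/
def io (n : ℕ) : FF n →* FF (n + 1) := FreeGroup.lift fun j : Fin n => xx (n + 1) j

theorem kap_xx (m : ℕ) : kap n (xx (n + 1) m) = xx n m := by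
  by_cases h : m < n + 1
  · have h1 := xx_of (⟨m, h⟩ : Fin (n + 1))
    simp only at h1
    rw [h1]
    unfold kap
    rw [FreeGroup.lift_apply_of]
  · rw [xx_ge (by omega), xx_ge (by omega), map_one]

theorem kap_pp (m : ℕ) : kap n (pp (n + 1) m) = pp n m := by
  induction m with
  | zero => rw [pp_zero, pp_zero, map_one]
  | succ m ih => rw [pp_succ, map_mul, ih, kap_xx, pp_succ]

theorem io_xx {m : ℕ} (h : m < n) : io n (xx n m) = xx (n + 1) m := by
  have h1 := xx_of (⟨m, h⟩ : Fin n)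
  simp only at h1
  rw [h1]
  unfold io
  rw [FreeGroup.lift_apply_of]

theorem io_pp {m : ℕ} (h : m ≤ n) : io n (pp n m) = pp (n + 1) m := by
  induction m with
  | zero => rw [pp_zero, pp_zero, map_one]
  | succ m ih => rw [pp_succ, map_mul, ih (by omega), io_xx (by omega), pp_succ]

theorem kap_io (z : FF n) : kap n (io n z) = z := by
  have h : (kap n).comp (io n) = MonoidHom.id _ := by
    apply ext_pp
    intro m hm
    rw [MonoidHom.comp_apply, io_pp hm, kap_pp, MonoidHom.id_apply]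
  exact DFunLike.congr_fun h z

theorem ext_io {G : Type*} [Group G] {f g : FF (n + 1) →* G} (h : ∀ z, f (io n z) = g (io n z))
    (h' : f (xx (n + 1) n) = g (xx (n + 1) n)) : f = g := by
  apply ext_pp
  intro m hm
  by_cases hm' : m ≤ n
  · rw [← io_pp hm', h]
  · have : m = n + 1 := by omega
    subst this
    rw [pp_succ, map_mul, map_mul, h', ← io_pp le_rfl, h]

/-- extension by the identity of the last generator -/
def sHom (f : FF n →* FF n) : FF (n + 1) →* FF (n + 1) :=
  FreeGroup.lift fun j : Fin (n + 1) => if (j : ℕ) < n then io n (f (xx n j)) else FreeGroup.of j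

theorem sHom_io (f : FF n →* FF n) (z : FF n) : sHom f (io n z) = io n (f z) := by
  have h : (sHom f).comp (io n) = (io n).comp f := by
    ext j
    rw [MonoidHom.comp_apply, MonoidHom.comp_apply, ← xx_of j, io_xx j.isLt]
    have h1 := xx_of (⟨j, by omega⟩ : Fin (n + 1))
    simp only at h1
    rw [h1]
    unfold sHom
    rw [FreeGroup.lift_apply_of, if_pos j.isLt]
  exact DFunLike.congr_fun h z

theorem sHom_last (f : FF n →* FF n) : sHom f (xx (n + 1) n) = xx (n + 1) n := by
  have h1 := xx_of (⟨n, by omega⟩ : Fin (n + 1))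
  simp only at h1
  rw [h1]
  unfold sHom
  rw [FreeGroup.lift_apply_of, if_neg (by simp)]

theorem sHom_comp (f g : FF n →* FF n) : (sHom f).comp (sHom g) = sHom (f.comp g) := by
  apply ext_io
  · intro z
    rw [MonoidHom.comp_apply, sHom_io, sHom_io, sHom_io, MonoidHom.comp_apply]
  · rw [MonoidHom.comp_apply, sHom_last, sHom_last, sHom_last]

theorem sHom_id : sHom (MonoidHom.id (FF n)) = MonoidHom.id (FF (n + 1)) := by
  apply ext_io
  · intro z
    rw [sHom_io, MonoidHom.id_apply, MonoidHom.id_apply]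
  · rw [sHom_last, MonoidHom.id_apply]

def sAut (f : MulAut (FF n)) : MulAut (FF (n + 1)) :=
  MonoidHom.toMulEquiv (sHom f.toMonoidHom) (sHom (f⁻¹ : MulAut (FF n)).toMonoidHom)
    (by
      rw [sHom_comp]
      have : (f⁻¹ : MulAut (FF n)).toMonoidHom.comp f.toMonoidHom = MonoidHom.id _ := by
        ext j
        change (f⁻¹ * f) (FreeGroup.of j) = FreeGroup.of j
        rw [inv_mul_cancel]
        rfl
      rw [this, sHom_id])
    (by
      rw [sHom_comp]
      have : f.toMonoidHom.comp (f⁻¹ : MulAut (FF n)).toMonoidHom = MonoidHom.id _ := by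
        ext j
        change (f * f⁻¹) (FreeGroup.of j) = FreeGroup.of j
        rw [mul_inv_cancel]
        rfl
      rw [this, sHom_id])

theorem sAut_io (f : MulAut (FF n)) (z : FF n) : sAut f (io n z) = io n (f z) :=
  sHom_io f.toMonoidHom z

theorem sAut_last (f : MulAut (FF n)) : sAut f (xx (n + 1) n) = xx (n + 1) n :=
  sHom_last f.toMonoidHom

theorem aut_ext_io {f g : MulAut (FF (n + 1))} (h : ∀ z, f (io n z) = g (io n z))
    (h' : f (xx (n + 1) n) = g (xx (n + 1) n)) : f = g := by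
  apply MulEquiv.toMonoidHom_injective
  exact ext_io h h'

/-- the section -/
def ss (n : ℕ) : MulAut (FF n) →* MulAut (FF (n + 1)) where
  toFun := sAut
  map_one' := by
    apply aut_ext_io
    · intro z
      rw [sAut_io]
      rfl
    · rw [sAut_last]
      rfl
  map_mul' := by
    intro f g
    apply aut_ext_io
    · intro z
      rw [sAut_io, MulAut.mul_apply, MulAut.mul_apply, sAut_io, sAut_io]
    · rw [sAut_last, MulAut.mul_apply, sAut_last, sAut_last]

theorem ss_io (f : MulAut (FF n)) (z : FF n) : ss n f (io n z) = io n (f z) := sAut_io f z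

theorem ss_last (f : MulAut (FF n)) : ss n f (xx (n + 1) n) = xx (n + 1) n := sAut_last f

theorem kap_ss (f : MulAut (FF n)) (z : FF (n + 1)) : kap n (ss n f z) = f (kap n z) := by
  have h : (kap n).comp (ss n f).toMonoidHom = f.toMonoidHom.comp (kap n) := by
    apply ext_io
    · intro z
      change kap n (ss n f (io n z)) = f (kap n (io n z))
      rw [ss_io, kap_io, kap_io]
    · change kap n (ss n f (xx (n + 1) n)) = f (kap n (xx (n + 1) n))
      rw [ss_last, kap_xx, xx_ge le_rfl, map_one]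
  exact DFunLike.congr_fun h z

theorem ss_sg {i : ℕ} (hi : i + 1 < n) : ss n (sg n i hi) = sg (n + 1) i (by omega) := by
  apply au_ext
  intro m hm
  by_cases hm' : m ≤ n
  · rw [← io_pp hm', ss_io]
    by_cases h : m = i + 1
    · subst h
      rw [sg_eq, map_mul, map_mul, map_inv, io_pp (by omega), io_pp (by omega), io_pp (by omega),
        sg_eq]
    · rw [sg_ne _ h, io_pp hm', sg_ne _ h]
  · have : m = n + 1 := by omega
    subst this
    rw [sg_ne _ (by omega), pp_succ, map_mul, ss_last, ← io_pp le_rfl, ss_io, sg_ne _ (by omega)]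

/-! ### The push subgroup -/

/-- the subgroup generated by the pushes -/
def PW (n : ℕ) : Subgroup (MulAut (FF (n + 1))) :=
  Subgroup.closure {a | ∃ (k : ℕ) (hk : k < n), a = ak n k hk}

theorem ak_mem {k : ℕ} (hk : k < n) : ak n k hk ∈ PW n := Subgroup.subset_closure ⟨k, hk, rfl⟩

theorem sg_conj {i k : ℕ} (hi : i + 1 < n) (hk : k < n) :
    sg (n + 1) i (by omega) * ak n k hk * (sg (n + 1) i (by omega))⁻¹ ∈ PW n ∧
      (sg (n + 1) i (by omega))⁻¹ * ak n k hk * sg (n + 1) i (by omega) ∈ PW n := by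
  have hB := relB hi
  have hC := relC hi
  have h0 := ak_mem (n := n) (k := i) (by omega)
  have h1 := ak_mem (n := n) (k := i + 1) hi
  set σ := sg (n + 1) i (by omega) with hσ
  by_cases e0 : k = i
  · subst e0
    set A := ak n k (by omega) with hA
    set B := ak n (k + 1) hi with hBd
    constructor
    · have : σ * A * σ⁻¹ = B := by rw [hB, mul_inv_cancel_right]
      rw [this]
      exact h1
    · have h2 : σ⁻¹ * A * σ = A * B * A⁻¹ := by
        have h3 : σ⁻¹ * B * σ = A := by rw [mul_assoc, ← hB, inv_mul_cancel_left]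
        have h4 : σ⁻¹ * (A * B) * σ = A * B := by rw [mul_assoc, ← hC, inv_mul_cancel_left]
        have h5 : σ⁻¹ * (A * B) * σ = (σ⁻¹ * A * σ) * (σ⁻¹ * B * σ) := by group
        rw [h3, h4] at h5
        rw [h5, mul_inv_cancel_right]
      rw [h2]
      exact mul_mem (mul_mem h0 h1) (inv_mem h0)
  · by_cases e1 : k = i + 1
    · subst e1
      set A := ak n i (by omega) with hA
      set B := ak n (i + 1) hk with hBd
      constructor
      · have h2 : σ * B * σ⁻¹ = B⁻¹ * A * B := by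
          have h3 : σ * A * σ⁻¹ = B := by rw [hB, mul_inv_cancel_right]
          have h4 : σ * (A * B) * σ⁻¹ = A * B := by rw [hC, mul_inv_cancel_right]
          have h5 : σ * (A * B) * σ⁻¹ = (σ * A * σ⁻¹) * (σ * B * σ⁻¹) := by group
          rw [h3, h4] at h5
          rw [mul_assoc B⁻¹ A B, h5, inv_mul_cancel_left]
        rw [h2]
        exact mul_mem (mul_mem (inv_mem h1) h0) h1
      · have : σ⁻¹ * B * σ = A := by rw [mul_assoc, ← hB, inv_mul_cancel_left]
        rw [this]
        exact h0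
    · have hA := relA hi hk e0 e1
      rw [← hσ] at hA
      constructor
      · rw [hA, mul_inv_cancel_right]
        exact ak_mem hk
      · rw [mul_assoc, ← hA, inv_mul_cancel_left]
        exact ak_mem hk

theorem sg_norm {i : ℕ} (hi : i + 1 < n) :
    sg (n + 1) i (by omega) ∈ Subgroup.normalizer (PW n : Set (MulAut (FF (n + 1)))) := by
  have key : ∀ τ : MulAut (FF (n + 1)), (∀ (k : ℕ) (hk : k < n), τ * ak n k hk * τ⁻¹ ∈ PW n) →
      ∀ a ∈ PW n, τ * a * τ⁻¹ ∈ PW n := by
    intro τ hτ a ha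
    have h : PW n ≤ (PW n).comap (MulAut.conj τ).toMonoidHom := by
      conv_lhs => unfold PW
      rw [Subgroup.closure_le]
      rintro _ ⟨k, hk, rfl⟩
      exact hτ k hk
    exact h ha
  rw [Subgroup.mem_normalizer_iff]
  intro a
  constructor
  · exact key _ (fun k hk => (sg_conj hi hk).1) a
  · intro ha
    have h := key (sg (n + 1) i (by omega))⁻¹ (fun k hk => by
      rw [inv_inv]
      exact (sg_conj hi hk).2) _ ha
    have e : (sg (n + 1) i (by omega))⁻¹ * (sg (n + 1) i (by omega) * a *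
        (sg (n + 1) i (by omega))⁻¹) * (sg (n + 1) i (by omega))⁻¹⁻¹ = a := by group
    rwa [e] at h

theorem ss_norm {b : MulAut (FF n)} (hb : b ∈ Br n) :
    ss n b ∈ Subgroup.normalizer (PW n : Set (MulAut (FF (n + 1)))) := by
  have h : Br n ≤ (Subgroup.normalizer (PW n : Set (MulAut (FF (n + 1))))).comap (ss n) := by
    unfold Br
    rw [Subgroup.closure_le]
    rintro f ⟨i, j, hij, hf⟩
    have hi : (i : ℕ) + 1 < n := by
      rw [← hij]
      exact j.isLt
    change ss n f ∈ Subgroup.normalizer (PW n : Set (MulAut (FF (n + 1))))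
    rw [isSig_sg hij hf, ss_sg hi]
    exact sg_norm hi
  exact h hb

/-- the subgroup of the products `a * s(b)` -/
def MM (n : ℕ) : Subgroup (MulAut (FF (n + 1))) where
  carrier := {f | ∃ a ∈ PW n, ∃ b ∈ Br n, f = a * ss n b}
  mul_mem' := by
    rintro _ _ ⟨a, ha, b, hb, rfl⟩ ⟨a', ha', b', hb', rfl⟩
    refine ⟨a * (ss n b * a' * (ss n b)⁻¹), mul_mem ha ?_, b * b', mul_mem hb hb', ?_⟩
    · exact ((Subgroup.mem_normalizer_iff.mp (ss_norm hb)) a').mp ha'
    · rw [map_mul]
      group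
  one_mem' := ⟨1, one_mem _, 1, one_mem _, by rw [map_one, mul_one]⟩
  inv_mem' := by
    rintro _ ⟨a, ha, b, hb, rfl⟩
    refine ⟨ss n b⁻¹ * a⁻¹ * (ss n b⁻¹)⁻¹, ?_, b⁻¹, inv_mem hb, ?_⟩
    · exact ((Subgroup.mem_normalizer_iff.mp (ss_norm (inv_mem hb))) a⁻¹).mp (inv_mem ha)
    · rw [map_inv]
      group

theorem pw_le : PW n ≤ MM n := fun a ha => ⟨a, ha, 1, one_mem _, by rw [map_one, mul_one]⟩

theorem ss_le {b : MulAut (FF n)} (hb : b ∈ Br n) : ss n b ∈ MM n :=
  ⟨1, one_mem _, b, hb, by rw [one_mul]⟩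

theorem sg_le {i : ℕ} (hi : i + 1 < n) : sg (n + 1) i (by omega) ∈ MM n := by
  rw [← ss_sg hi]
  exact ss_le (sg_mem hi)

theorem coset_step {i k : ℕ} (hi : i < n) (hk : k ≤ n) :
    (∃ m ∈ MM n, ∃ k' ≤ n, tau n k * sg (n + 1) i (by omega) = m * tau n k') ∧
      (∃ m ∈ MM n, ∃ k' ≤ n, tau n k * (sg (n + 1) i (by omega))⁻¹ = m * tau n k') := by
  rcases lt_trichotomy (i + 1) k with h | h | h
  · have h2 := rel2 h hk
    refine ⟨⟨_, sg_le (by omega), k, hk, h2⟩, ⟨_, inv_mem (sg_le (i := i) (by omega)), k, hk, ?_⟩⟩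
    rw [mul_inv_eq_iff_eq_mul, mul_assoc, h2, inv_mul_cancel_left]
  · subst h
    refine ⟨⟨1, one_mem _, i, by omega, ?_⟩, ⟨(ak n i hi)⁻¹, inv_mem (pw_le (ak_mem hi)), i,
      by omega, ?_⟩⟩
    · rw [one_mul, rel3 hi]
    · rw [mul_inv_eq_iff_eq_mul, mul_assoc, rel4 hi, inv_mul_cancel_left]
  · rcases Nat.lt_or_ge k i with h' | h'
    · obtain ⟨j, rfl⟩ : ∃ j, i = j + 1 := ⟨i - 1, by omega⟩
      have h1 := rel1 (k := k) (j := j) (by omega) hi
      refine ⟨⟨_, sg_le (by omega), k, hk, h1⟩,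
        ⟨_, inv_mem (sg_le (i := j) (by omega)), k, hk, ?_⟩⟩
      rw [mul_inv_eq_iff_eq_mul, mul_assoc, h1, inv_mul_cancel_left]
    · have : k = i := by omega
      subst this
      refine ⟨⟨ak n k hi, pw_le (ak_mem hi), k + 1, by omega, rel4 hi⟩,
        ⟨1, one_mem _, k + 1, by omega, ?_⟩⟩
      rw [one_mul, mul_inv_eq_iff_eq_mul, rel3 hi]

theorem coset {f : MulAut (FF (n + 1))} (hf : f ∈ Br (n + 1)) :
    ∃ m ∈ MM n, ∃ k ≤ n, f = m * tau n k := by
  unfold Br at hf
  induction hf using Subgroup.closure_induction_right with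
  | one => exact ⟨1, one_mem _, n, le_rfl, by rw [tau_last, mul_one]⟩
  | mul_right x hx y hy ih =>
    obtain ⟨m, hm, k, hk, rfl⟩ := ih
    obtain ⟨i, j, hij, hσ⟩ := hy
    have hi : (i : ℕ) + 1 < n + 1 := by
      rw [← hij]
      exact j.isLt
    obtain ⟨m', hm', k', hk', e⟩ := (coset_step (i := i) (k := k) (by omega) hk).1
    refine ⟨m * m', mul_mem hm hm', k', hk', ?_⟩
    rw [isSig_sg hij hσ, mul_assoc, e, mul_assoc]
  | mul_inv_cancel x hx y hy ih =>
    obtain ⟨m, hm, k, hk, rfl⟩ := ih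
    obtain ⟨i, j, hij, hσ⟩ := hy
    have hi : (i : ℕ) + 1 < n + 1 := by
      rw [← hij]
      exact j.isLt
    obtain ⟨m', hm', k', hk', e⟩ := (coset_step (i := i) (k := k) (by omega) hk).2
    refine ⟨m * m', mul_mem hm hm', k', hk', ?_⟩
    rw [isSig_sg hij hσ, mul_assoc, e, mul_assoc]

/-! ### The push homomorphism -/

/-- the push homomorphism -/
def Xi (n : ℕ) : FF n →* MulAut (FF (n + 1)) := FreeGroup.lift fun k : Fin n => ak n k k.isLt

theorem Xi_of (k : Fin n) : Xi n (FreeGroup.of k) = ak n k k.isLt := by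
  unfold Xi
  rw [FreeGroup.lift_apply_of]

theorem pw_Xi {a : MulAut (FF (n + 1))} (ha : a ∈ PW n) : ∃ y, a = Xi n y := by
  have h : PW n ≤ (Xi n).range := by
    unfold PW
    rw [Subgroup.closure_le]
    rintro _ ⟨k, hk, rfl⟩
    exact ⟨FreeGroup.of ⟨k, hk⟩, Xi_of _⟩
  obtain ⟨y, hy⟩ := h ha
  exact ⟨y, hy.symm⟩

theorem kap_hh : kap n (hh n) = 1 := by
  unfold hh
  rw [map_mul, map_inv, kap_pp, kap_pp, pp_ge (by omega), mul_inv_cancel]

theorem kap_gk (k : ℕ) : kap n (gk n k) = 1 := by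
  unfold gk
  rw [map_mul, map_mul, map_mul, map_inv, map_inv, kap_hh]
  group

theorem kap_ak {k : ℕ} (hk : k < n) (z : FF (n + 1)) : kap n (ak n k hk z) = kap n z := by
  have h : (kap n).comp (ak n k hk).toMonoidHom = kap n := by
    apply ext_pp
    intro m hm
    change kap n (ak n k hk (pp (n + 1) m)) = kap n (pp (n + 1) m)
    by_cases h : k < m ∧ m ≤ n
    · rw [ak_in hk h.1 h.2, map_mul, kap_gk, one_mul]
    · rw [ak_out hk (by omega)]
  exact DFunLike.congr_fun h z

theorem kap_Xi (y : FF n) : ∀ z : FF (n + 1), kap n (Xi n y z) = kap n z := by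
  induction y using FreeGroup.induction_on with
  | C1 => intro z; rw [map_one]; rfl
  | of k => intro z; rw [Xi_of, kap_ak]
  | inv_of k ih =>
    intro z
    have h := ih ((Xi n (FreeGroup.of k))⁻¹ z)
    rw [← MulAut.mul_apply, mul_inv_cancel, MulAut.one_apply] at h
    rw [map_inv]
    exact h.symm
  | mul u v hu hv =>
    intro z
    rw [map_mul, MulAut.mul_apply, hu, hv]

/-- the involution -/
def omq (n m : ℕ) : FF n := (pp n n)⁻¹ * (pp n m)⁻¹ * pp n n

def om (n : ℕ) : FF n →* FF n := hmq n (omq n)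

theorem omq_zero : omq n 0 = 1 := by
  unfold omq
  rw [pp_zero]
  group

theorem om_pp {m : ℕ} (hm : m ≤ n) : om n (pp n m) = (pp n n)⁻¹ * (pp n m)⁻¹ * pp n n :=
  hmq_pp omq_zero hm

theorem om_om (z : FF n) : om n (om n z) = z := by
  have h : (om n).comp (om n) = MonoidHom.id _ := by
    apply ext_pp
    intro m hm
    rw [MonoidHom.comp_apply, om_pp hm, map_mul, map_mul, map_inv, map_inv, om_pp hm, om_pp le_rfl,
      MonoidHom.id_apply]
    group
  exact DFunLike.congr_fun h z

theorem Xi_last (y : FF n) : ∃ w : FF (n + 1),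
    Xi n y (xx (n + 1) n) = w * xx (n + 1) n * w⁻¹ ∧ kap n w = (om n y)⁻¹ := by
  induction y using FreeGroup.induction_on with
  | C1 => exact ⟨1, by rw [map_one]; simp, by rw [map_one, map_one, inv_one]⟩
  | of k =>
    refine ⟨(pp (n + 1) n)⁻¹ * dk n k * pp (n + 1) n, ?_, ?_⟩
    · rw [Xi_of, xx_pp, map_mul, map_inv, ak_in _ k.isLt le_rfl, ak_out _ (Or.inr rfl)]
      unfold gk dk hh
      group
    · unfold dk
      rw [map_mul, map_mul, map_inv, map_mul, map_inv, kap_pp, kap_pp, kap_pp, ← xx_of k, xx_pp,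
        map_mul, map_inv, om_pp (by omega), om_pp (by omega)]
      group
  | inv_of k ih =>
    obtain ⟨w, hw, hk⟩ := ih
    refine ⟨((Xi n (FreeGroup.of k))⁻¹ w)⁻¹, ?_, ?_⟩
    · have h : (Xi n (FreeGroup.of k))⁻¹ (Xi n (FreeGroup.of k) (xx (n + 1) n)) =
          xx (n + 1) n := by
        rw [← MulAut.mul_apply, inv_mul_cancel, MulAut.one_apply]
      rw [hw, map_mul, map_mul, map_inv] at h
      rw [map_inv]
      set a := (Xi n (FreeGroup.of k))⁻¹ w with ha
      set c := (Xi n (FreeGroup.of k))⁻¹ (xx (n + 1) n) with hc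
      rw [← h]
      group
    · have h : kap n ((Xi n (FreeGroup.of k))⁻¹ w) = kap n w := by
        have h2 := kap_Xi (FreeGroup.of k)⁻¹ w
        rwa [map_inv] at h2
      rw [map_inv, h, hk, map_inv]
  | mul u v hu hv =>
    obtain ⟨w, hw, hk⟩ := hu
    obtain ⟨w', hw', hk'⟩ := hv
    refine ⟨Xi n u w' * w, ?_, ?_⟩
    · rw [map_mul, MulAut.mul_apply, hw', map_mul, map_mul, map_inv, hw]
      group
    · rw [map_mul, kap_Xi, hk, hk', map_mul]
      group

/-- the stabiliser of the last puncture -/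
theorem stab_last {f : MulAut (FF (n + 1))} (hf : f ∈ Br (n + 1))
    (h : ∃ w, f (xx (n + 1) n) = w * xx (n + 1) n * w⁻¹) :
    ∃ (y : FF n) (b : MulAut (FF n)), b ∈ Br n ∧ f = Xi n y * ss n b := by
  obtain ⟨m, ⟨a, ha, b, hb, rfl⟩, k, hk, rfl⟩ := coset hf
  obtain ⟨y, rfl⟩ := pw_Xi ha
  by_cases hkn : k = n
  · subst hkn
    exact ⟨y, b, hb, by rw [tau_last, mul_one]⟩
  · exfalso
    obtain ⟨j, rfl⟩ : ∃ j, n = j + 1 := ⟨n - 1, by omega⟩
    obtain ⟨w, hw⟩ := h
    have h1 : tau (j + 1) k (xx (j + 1 + 1) (j + 1)) = io (j + 1) (xx (j + 1) j) := by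
      rw [xx_pp, map_mul, map_inv, tau_in (by omega) (by omega), tau_in (by omega) le_rfl,
        io_xx (by omega), xx_pp, Nat.add_sub_cancel]
      have : j + 1 + 1 - 1 = j + 1 := by omega
      rw [this]
      group
    have h2 := congrArg (kap (j + 1)) hw
    rw [MulAut.mul_apply, MulAut.mul_apply, h1, kap_Xi, kap_ss, kap_io, map_mul, map_mul, map_inv,
      kap_xx, xx_ge le_rfl, mul_one, mul_inv_cancel] at h2
    have h3 : xx (j + 1) j = 1 := b.injective (h2.trans (map_one b).symm)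
    have h4 := xx_of (⟨j, by omega⟩ : Fin (j + 1))
    simp only at h4
    rw [h4] at h3
    exact FreeGroup.of_ne_one _ h3

end Pool.MP_59b15d_al.Sym
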