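import Mathlib
import Pool.Agent.H.MP_59b15d_al.h94s.Ga3
import Pool.Agent.H.MP_59b15d_al.h76m.Hb
import Pool.Agent.H.MP_59b15d_al.h76m.Hd

set_option autoImplicit false

/-!
The congruence subgroup property in genus zero.
-/

namespace Pool.MP_59b15d_al.Sym

open Pool.MP_59b15d_al.H76 (trivMod mem_trivMod trivMod_finiteIndex exists_char_le free_cs
  comap_fi)

variable {n N : ℕ}

/-- the stabiliser of `x_n` -/
def CP0 (N : ℕ) : Subgroup (MulAut (FF N)) where
  carrier := {f | f ∈ CP N ∧ f (pp N N) = pp N N}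
  mul_mem' := by
    rintro f g ⟨hf, hf'⟩ ⟨hg, hg'⟩
    refine ⟨mul_mem hf hg, ?_⟩
    rw [MulAut.mul_apply, hg', hf']
  one_mem' := ⟨one_mem _, rfl⟩
  inv_mem' := by
    rintro f ⟨hf, hf'⟩
    refine ⟨inv_mem hf, ?_⟩
    have h : f⁻¹ (f (pp N N)) = pp N N := by
      rw [← MulAut.mul_apply, inv_mul_cancel, MulAut.one_apply]
    rwa [hf'] at h

theorem mem_CP0 {f : MulAut (FF N)} : f ∈ CP0 N ↔ f ∈ CP N ∧ f (pp N N) = pp N N := Iff.rfl

theorem CP0_of {f : MulAut (FF N)} (h : ∀ m, m < N → ∃ w, f (xx N m) = w * xx N m * w⁻¹)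
    (h' : f (pp N N) = pp N N) : f ∈ CP0 N := by
  refine ⟨fun j => ?_, h'⟩
  refine Fin.lastCases ?_ (fun i => ?_) j
  · refine ⟨1, ?_⟩
    rw [per_last, xn_pp, map_inv, h']
    group
  · rw [per_castSucc, ← xx_of]
    exact h i i.isLt

theorem CP0_xx {f : MulAut (FF N)} (hf : f ∈ CP N) {m : ℕ} (hm : m < N) :
    ∃ w, f (xx N m) = w * xx N m * w⁻¹ := by
  obtain ⟨w, hw⟩ := hf (⟨m, hm⟩ : Fin N).castSucc
  rw [per_castSucc, ← xx_of] at hw
  exact ⟨w, hw⟩

theorem ak_CP0 {k : ℕ} (hk : k < n) : ak n k hk ∈ CP0 (n + 1) := by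
  apply CP0_of
  · intro m hm
    rcases lt_trichotomy m k with h | h | h
    · refine ⟨1, ?_⟩
      rw [xx_pp, map_mul, map_inv, ak_out hk (by omega), ak_out hk (by omega)]
      group
    · subst h
      refine ⟨(pp (n + 1) m)⁻¹ * hh n * pp (n + 1) m, ?_⟩
      rw [xx_pp, map_mul, map_inv, ak_out hk (by omega), ak_in hk (by omega) (by omega)]
      unfold gk dk
      group
    · by_cases hmn : m = n
      · subst hmn
        obtain ⟨w, hw, -⟩ := Xi_last (FreeGroup.of (⟨k, hk⟩ : Fin m))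
        rw [Xi_of] at hw
        exact ⟨w, hw⟩
      · refine ⟨1, ?_⟩
        rw [xx_pp, map_mul, map_inv, ak_in hk h (by omega), ak_in hk (by omega) (by omega)]
        group
  · exact ak_out hk (Or.inr rfl)

theorem Xi_CP0 (y : FF n) : Xi n y ∈ CP0 (n + 1) := by
  induction y using FreeGroup.induction_on with
  | C1 => rw [map_one]; exact one_mem _
  | of k => rw [Xi_of]; exact ak_CP0 _
  | inv_of k ih => rw [map_inv]; exact inv_mem ih
  | mul u v hu hv => rw [map_mul]; exact mul_mem hu hv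

theorem ss_CP0 {b : MulAut (FF n)} (hb : b ∈ CP0 n) : ss n b ∈ CP0 (n + 1) := by
  apply CP0_of
  · intro m hm
    by_cases hmn : m = n
    · subst hmn
      refine ⟨1, ?_⟩
      rw [ss_last]
      group
    · obtain ⟨w, hw⟩ := CP0_xx hb.1 (show m < n by omega)
      refine ⟨io n w, ?_⟩
      rw [← io_xx (by omega), ss_io, hw, map_mul, map_mul, map_inv]
  · rw [pp_succ, map_mul, ss_last, ← io_pp le_rfl, ss_io, hb.2]

theorem fi_comap {G G' : Type*} [Group G] [Group G'] (f : G →* G') {H K : Subgroup G'}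
    (h : H.relIndex K ≠ 0) {L : Subgroup G} (hf : ∀ x ∈ L, f x ∈ K) :
    (H.comap f).relIndex L ≠ 0 := by
  rw [Subgroup.relIndex_comap]
  intro h0
  apply h
  refine Subgroup.relIndex_eq_zero_of_le_right ?_ h0
  rintro _ ⟨x, hx, rfl⟩
  exact hf x hx

theorem g0aux : ∀ (N : ℕ) (H : Subgroup (MulAut (FF N))), H.relIndex (CP0 N) ≠ 0 →
    ∃ U : Subgroup (FF N), U.Normal ∧ U.FiniteIndex ∧
      ∀ f ∈ CP0 N, (∀ z, f z * z⁻¹ ∈ U) → f ∈ H := by
  intro N
  induction N with
  | zero =>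
    intro H _
    refine ⟨⊤, inferInstance, inferInstance, fun f _ _ => ?_⟩
    have : f = 1 := by
      apply MulEquiv.ext
      intro z
      exact Subsingleton.elim _ _
    rw [this]
    exact one_mem _
  | succ n ih =>
    intro H hH
    have hL : (H.comap (Xi n)).FiniteIndex := by
      constructor
      rw [← Subgroup.relIndex_top_right]
      exact fi_comap (Xi n) hH fun y _ => Xi_CP0 y
    have hLc : (H.comap (Xi n)).normalCore.FiniteIndex := Subgroup.finiteIndex_normalCore _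
    have hLcn : (H.comap (Xi n)).normalCore.Normal := Subgroup.normalCore_normal _
    let U1 : Subgroup (FF (n + 1)) := ((H.comap (Xi n)).normalCore.comap (om n)).comap (kap n)
    have hU1n : U1.Normal := inferInstance
    have hU1f : U1.FiniteIndex := comap_fi _ (comap_fi _ hLc)
    obtain ⟨M, hMn, hMf, -, hM⟩ := free_cs (Fin.last n) U1
    obtain ⟨Γ, hΓ, hΓf, hΓM⟩ := exists_char_le M hMf
    have hΓn : Γ.Normal := inferInstance
    have htf := trivMod_finiteIndex hΓ hΓf
    have hH' : ((H ⊓ trivMod Γ).comap (ss n)).relIndex (CP0 n) ≠ 0 := by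
      refine fi_comap (ss n) (K := CP0 (n + 1)) ?_ fun b hb => ss_CP0 hb
      refine Subgroup.relIndex_inf_ne_zero hH ?_
      intro h0
      exact htf.index_ne_zero (Subgroup.index_eq_zero_of_relIndex_eq_zero h0)
    obtain ⟨U', hU'n, hU'f, hU'⟩ := ih _ hH'
    have hU'c : (U'.comap (kap n)).FiniteIndex := comap_fi _ hU'f
    refine ⟨Γ ⊓ U'.comap (kap n), inferInstance, inferInstance, ?_⟩
    rintro f ⟨hf, hfc⟩ hfU
    have hfx : ∃ w, f (xx (n + 1) n) = w * xx (n + 1) n * w⁻¹ := CP0_xx hf (by omega)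
    have hfB : f ∈ Br (n + 1) := by
      apply artin
      · intro j
        obtain ⟨w, hw⟩ := hf j.castSucc
        rw [per_castSucc] at hw
        exact ⟨j, w, hw⟩
      · rw [xn_pp, map_inv, hfc]
    obtain ⟨y, b, hb, rfl⟩ := stab_last hfB hfx
    have hkf : ∀ z, kap n ((Xi n y * ss n b) z) = b (kap n z) := by
      intro z
      rw [MulAut.mul_apply, kap_Xi, kap_ss]
    have hb0 : b ∈ CP0 n := by
      apply CP0_of
      · intro m hm
        obtain ⟨w, hw⟩ := CP0_xx hf (show m < n + 1 by omega)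
        have h1 := hkf (xx (n + 1) m)
        rw [hw, map_mul, map_mul, map_inv, kap_xx] at h1
        exact ⟨_, h1.symm⟩
      · exact br_fix hb
    have hbU : ∀ z, b z * z⁻¹ ∈ U' := by
      intro z
      have h1 : kap n ((Xi n y * ss n b) (io n z) * (io n z)⁻¹) ∈ U' := (hfU (io n z)).2
      rw [map_mul, map_inv, hkf, kap_io] at h1
      exact h1
    have hbH := hU' b hb0 hbU
    rw [Subgroup.mem_comap, Subgroup.mem_inf] at hbH
    refine mul_mem ?_ hbH.1
    have hX : Xi n y ∈ trivMod Γ := by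
      have h1 : Xi n y * ss n b ∈ trivMod Γ := fun z => (hfU z).1
      have h2 := mul_mem h1 (inv_mem hbH.2)
      rwa [mul_inv_cancel_right] at h2
    obtain ⟨w, hw, hkw⟩ := Xi_last y
    have h3 := hΓM (hX (xx (n + 1) n))
    rw [hw] at h3
    have h4 := xx_of (Fin.last n)
    simp only [Fin.val_last] at h4
    rw [h4] at h3
    obtain ⟨k, hk⟩ := hM w h3
    have h5 : om n (kap n (w * FreeGroup.of (Fin.last n) ^ k)) ∈
        (H.comap (Xi n)).normalCore := hk
    rw [map_mul, map_zpow, ← h4, kap_xx, xx_ge le_rfl, one_zpow, mul_one, hkw, map_inv,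
      om_om] at h5
    have h6 := Subgroup.normalCore_le _ (inv_mem h5)
    rw [inv_inv] at h6
    exact h6

theorem conj_CP (v : FF N) : MulAut.conj v ∈ CP N := fun _ => ⟨v, rfl⟩

/-- an automorphism mapping the last generator to the product of all generators -/
theorem exists_al (n : ℕ) : ∃ α : MulAut (FF (n + 1)),
    α (FreeGroup.of (Fin.last n)) = pp (n + 1) (n + 1) := by
  let q : ℕ → FF (n + 1) := fun m =>
    if m ≤ n then pp (n + 1) m else pp (n + 1) n * pp (n + 1) (n + 1)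
  let q' : ℕ → FF (n + 1) := fun m =>
    if m ≤ n then pp (n + 1) m else (pp (n + 1) n)⁻¹ * pp (n + 1) (n + 1)
  have q1 : ∀ m, m ≤ n → q m = pp (n + 1) m := fun m hm => if_pos hm
  have q2 : q (n + 1) = pp (n + 1) n * pp (n + 1) (n + 1) := if_neg (by omega)
  have q1' : ∀ m, m ≤ n → q' m = pp (n + 1) m := fun m hm => if_pos hm
  have q2' : q' (n + 1) = (pp (n + 1) n)⁻¹ * pp (n + 1) (n + 1) := if_neg (by omega)
  have q0 : q 0 = 1 := by rw [q1 0 (by omega), pp_zero]
  have q0' : q' 0 = 1 := by rw [q1' 0 (by omega), pp_zero]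
  let α : MulAut (FF (n + 1)) := auq (n + 1) q q' q0 q0'
    (fun m hm => by
      by_cases h : m ≤ n
      · rw [q1' m h, hmq_pp q0 hm, q1 m h]
      · have : m = n + 1 := by omega
        subst this
        rw [q2', map_mul, map_inv, hmq_pp q0 (by omega), hmq_pp q0 le_rfl, q1 n le_rfl, q2]
        group)
    (fun m hm => by
      by_cases h : m ≤ n
      · rw [q1 m h, hmq_pp q0' hm, q1' m h]
      · have : m = n + 1 := by omega
        subst this
        rw [q2, map_mul, hmq_pp q0' (by omega), hmq_pp q0' le_rfl, q1' n le_rfl, q2']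
        group)
  refine ⟨α, ?_⟩
  have h4 := xx_of (Fin.last n)
  simp only [Fin.val_last] at h4
  rw [← h4, xx_pp, map_mul, map_inv]
  have h5 : ∀ m, m ≤ n + 1 → α (pp (n + 1) m) = q m := fun m hm => auq_pp _ _ _ _ hm
  rw [h5 n (by omega), h5 (n + 1) le_rfl, q1 n le_rfl, q2]
  group

/-- the centraliser of the product of all generators -/
theorem cs_last (M : Subgroup (FF (n + 1))) (hM : M.Normal) (hMf : M.FiniteIndex) :
    ∃ M' : Subgroup (FF (n + 1)), M'.Normal ∧ M'.FiniteIndex ∧ M' ≤ M ∧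
      ∀ g : FF (n + 1), g * pp (n + 1) (n + 1) * g⁻¹ * (pp (n + 1) (n + 1))⁻¹ ∈ M' →
        ∃ k : ℤ, g * pp (n + 1) (n + 1) ^ k ∈ M := by
  obtain ⟨α, hα⟩ := exists_al n
  have hM1n : (M.comap α.toMonoidHom).Normal := inferInstance
  have hM1f : (M.comap α.toMonoidHom).FiniteIndex := comap_fi _ hMf
  obtain ⟨M1, h1n, h1f, h1le, h1⟩ := free_cs (Fin.last n) (M.comap α.toMonoidHom)
  have e1 : ∀ z, α (α⁻¹ z) = z := fun z => by
    rw [← MulAut.mul_apply, mul_inv_cancel, MulAut.one_apply]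
  have e2 : ∀ z, α⁻¹ (α z) = z := fun z => by
    rw [← MulAut.mul_apply, inv_mul_cancel, MulAut.one_apply]
  refine ⟨M1.comap (α⁻¹ : MulAut (FF (n + 1))).toMonoidHom, inferInstance, comap_fi _ h1f, ?_, ?_⟩
  · intro x hx
    have h2 : α (α⁻¹ x) ∈ M := h1le hx
    rwa [e1] at h2
  · intro g hg
    have h2 : α⁻¹ (g * pp (n + 1) (n + 1) * g⁻¹ * (pp (n + 1) (n + 1))⁻¹) ∈ M1 := hg
    rw [← hα, map_mul, map_mul, map_mul, map_inv, map_inv, e2] at h2
    obtain ⟨k, hk⟩ := h1 _ h2
    refine ⟨k, ?_⟩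
    have h3 : α (α⁻¹ g * FreeGroup.of (Fin.last n) ^ k) ∈ M := hk
    rwa [map_mul, map_zpow, e1, hα] at h3

end Pool.MP_59b15d_al.Sym
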