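import Mathlib
import Pool.Agent.H.MP_59b15d_al.h94s.Fa1

set_option autoImplicit false

/-!
The dimension of the space of cocycles killing the powers of the peripheral elements.
-/

namespace Pool.MP_59b15d_al.Sym

open Finset

/-- the set of orbits of `g` on `S` -/
abbrev OQ {N : ℕ} (g : FF N) (S : Type*) [MulAction (FF N) S] : Type _ :=
  MulAction.orbitRel.Quotient (Subgroup.zpowers g) S

variable {N : ℕ} {S : Type*} [MulAction (FF N) S] {K : Type*} [Field K]

/-- the class of a point -/
def oq (g : FF N) (x : S) : OQ g S := Quotient.mk'' x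

theorem oq_surj (g : FF N) : Function.Surjective (oq (S := S) g) := Quotient.mk''_surjective

theorem oq_eq_iff {g : FF N} {x y : S} : oq g x = oq g y ↔ ∃ k : ℤ, g ^ k • y = x := by
  unfold oq
  rw [Quotient.eq'', MulAction.orbitRel_apply, MulAction.mem_orbit_iff]
  constructor
  · rintro ⟨⟨h, hh⟩, hx⟩
    obtain ⟨k, rfl⟩ := Subgroup.mem_zpowers_iff.mp hh
    exact ⟨k, hx⟩
  · rintro ⟨k, hx⟩
    exact ⟨⟨g ^ k, Subgroup.zpow_mem_zpowers g k⟩, hx⟩

theorem zpow_smul_of {g : FF N} {e : ℕ} (he : ∀ x : S, g ^ e • x = x) (k : ℤ) (x : S) :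
    g ^ ((e : ℤ) * k) • x = x := by
  have h1 : g ^ e ∈ MulAction.stabilizer (FF N) x := he x
  have h2 := Subgroup.zpow_mem _ h1 k
  rw [← zpow_natCast, ← zpow_mul] at h2
  exact h2

theorem oq_fiber {g : FF N} {e : ℕ} (he0 : 0 < e) (he : ∀ x : S, g ^ e • x = x) {x y : S}
    (h : oq g x = oq g y) : ∃ i < e, g ^ i • y = x := by
  obtain ⟨k, hk⟩ := oq_eq_iff.mp h
  have he' : (e : ℤ) ≠ 0 := by exact_mod_cast he0.ne'
  refine ⟨(k % e).toNat, ?_, ?_⟩
  · have h1 := Int.emod_lt_of_pos k (by exact_mod_cast he0 : (0 : ℤ) < e)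
    have h2 := Int.emod_nonneg k he'
    omega
  · have h2 := Int.emod_nonneg k he'
    have h3 : g ^ (k % (e : ℤ)).toNat = g ^ (k % (e : ℤ)) := by
      rw [← zpow_natCast, Int.toNat_of_nonneg h2]
    rw [h3, ← hk]
    have h4 : k = k % (e : ℤ) + (e : ℤ) * (k / e) := (Int.emod_add_mul_ediv k e).symm
    conv_rhs => rw [h4, zpow_add, mul_smul, zpow_smul_of he]

/-- every orbit has at most `e` elements -/
theorem card_le_oq [Fintype S] {g : FF N} {e : ℕ} (he0 : 0 < e)
    (he : ∀ x : S, g ^ e • x = x) : Fintype.card S ≤ e * Nat.card (OQ g S) := by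
  classical
  have hfin : Fintype (OQ g S) := Fintype.ofFinite _
  rw [Nat.card_eq_fintype_card]
  have h1 : ((univ : Finset S).card) ≤ e * ((univ : Finset S).image (oq g)).card := by
    refine card_le_mul_card_image _ _ ?_
    intro q hq
    obtain ⟨y, -, rfl⟩ := mem_image.mp hq
    have h2 : (univ.filter fun x => oq g x = oq g y) ⊆ (range e).image fun i => g ^ i • y := by
      intro x hx
      obtain ⟨i, hi, hx⟩ := oq_fiber he0 he (mem_filter.mp hx).2
      exact mem_image.mpr ⟨i, mem_range.mpr hi, hx⟩
    exact (card_le_card h2).trans (card_image_le.trans (card_range e).le)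
  have h3 : ((univ : Finset S).image (oq g)).card ≤ Fintype.card (OQ g S) := card_le_univ _
  calc Fintype.card S = (univ : Finset S).card := rfl
    _ ≤ _ := h1
    _ ≤ _ := Nat.mul_le_mul_left e h3

/-- if the powers `g ^ i`, `0 < i < e`, have no fixed point, every orbit has at least `e`
elements -/
theorem oq_le_card [Fintype S] {g : FF N} {e : ℕ}
    (he : ∀ (k : ℤ) (x : S), g ^ k • x = x → (e : ℤ) ∣ k) :
    e * Nat.card (OQ g S) ≤ Fintype.card S := by
  classical
  have hfin : Fintype (OQ g S) := Fintype.ofFinite _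
  rw [Nat.card_eq_fintype_card]
  choose r hr using oq_surj (S := S) g
  have h1 : Function.Injective fun p : Fin e × OQ g S => g ^ (p.1 : ℕ) • r p.2 := by
    rintro ⟨i, q⟩ ⟨j, q'⟩ h
    simp only at h
    have hq : q = q' := by
      rw [← hr q, ← hr q', oq_eq_iff]
      refine ⟨-(i : ℤ) + j, ?_⟩
      rw [zpow_add, mul_smul, zpow_natCast, ← h, zpow_neg, zpow_natCast, inv_smul_smul]
    subst hq
    have h2 : g ^ (-(j : ℤ) + i) • r q = r q := by
      rw [zpow_add, mul_smul, zpow_natCast, h, zpow_neg, zpow_natCast, inv_smul_smul]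
    have h3 := he _ _ h2
    have h4 : (i : ℕ) = j := by
      have hi := i.isLt
      have hj := j.isLt
      obtain ⟨k, hk⟩ := h3
      have hk0 : k = 0 := by
        by_contra hne
        rcases lt_or_gt_of_ne hne with hlt | hgt
        · have : (e : ℤ) * k ≤ (e : ℤ) * (-1) :=
            mul_le_mul_of_nonneg_left (by omega) (by positivity)
          omega
        · have : (e : ℤ) * 1 ≤ (e : ℤ) * k :=
            mul_le_mul_of_nonneg_left (by omega) (by positivity)
          omega
      rw [hk0, mul_zero] at hk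
      omega
    have h5 : i = j := Fin.ext h4
    rw [h5]
  have h6 := Fintype.card_le_of_injective _ h1
  rwa [Fintype.card_prod, Fintype.card_fin] at h6

omit [Field K] in
theorem inv_zpow_smul {g : FF N} {f : S → K} (hf : ∀ x, f (g • x) = f x) (k : ℤ) (x : S) :
    f (g ^ k • x) = f x := by
  induction k using Int.induction_on generalizing x with
  | zero => rw [zpow_zero, one_smul]
  | succ k ih => rw [zpow_add_one, mul_smul, ih, hf]
  | pred k ih =>
    rw [zpow_sub_one, mul_smul, ih, ← hf (g⁻¹ • x), smul_inv_smul]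

omit [Field K] in
/-- an invariant function factors through the set of orbits -/
theorem exists_oq {g : FF N} {f : S → K} (hf : ∀ x, f (g • x) = f x) :
    ∃ w : OQ g S → K, ∀ x, w (oq g x) = f x := by
  choose r hr using oq_surj (S := S) g
  refine ⟨fun q => f (r q), fun x => ?_⟩
  obtain ⟨k, hk⟩ := oq_eq_iff.mp (hr (oq g x))
  change f (r (oq g x)) = f x
  rw [← hk, inv_zpow_smul hf]

theorem oq_smul (g : FF N) (x : S) : oq g (g • x) = oq g x :=
  oq_eq_iff.mpr ⟨1, by rw [zpow_one]⟩

/-- the values at the powers of the peripheral elements -/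
def TT (S K : Type*) [MulAction (FF N) S] [Field K] (E : Fin (N + 1) → ℕ) :
    ZC N S K →ₗ[K] (Fin (N + 1) → S → K) where
  toFun c := fun j x => c.1 (per j ^ E j) x
  map_add' := by
    intro c d
    rfl
  map_smul' := by
    intro a c
    rfl

theorem TT_apply (E : Fin (N + 1) → ℕ) (c : ZC N S K) (j : Fin (N + 1)) (x : S) :
    TT S K E c j x = c.1 (per j ^ E j) x := rfl

/-- lift of functions on the orbits -/
def iot (S K : Type*) [MulAction (FF N) S] [Field K] :
    ((j : Fin (N + 1)) → OQ (per j : FF N) S → K) →ₗ[K] (Fin (N + 1) → S → K) where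
  toFun w := fun j x => w j (oq (per j) x)
  map_add' := by
    intro c d
    rfl
  map_smul' := by
    intro a c
    rfl

theorem iot_apply (w : (j : Fin (N + 1)) → OQ (per j : FF N) S → K) (j : Fin (N + 1)) (x : S) :
    iot S K w j x = w j (oq (per j) x) := rfl

theorem iot_inj : Function.Injective (iot (N := N) S K) := by
  intro w w' h
  funext j q
  obtain ⟨x, rfl⟩ := oq_surj _ q
  exact congrFun (congrFun h j) x

/-- the linear relation satisfied by the values -/
def lam (S K : Type*) [MulAction (FF N) S] [Field K] [Fintype S] (E : Fin (N + 1) → ℕ) :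
    ((j : Fin (N + 1)) → OQ (per j : FF N) S → K) →ₗ[K] K where
  toFun w := ∑ j, (E j : K)⁻¹ * ∑ x, w j (oq (per j) x)
  map_add' := by
    intro c d
    simp only [Pi.add_apply, sum_add_distrib, mul_add]
  map_smul' := by
    intro a c
    simp only [Pi.smul_apply, smul_eq_mul, RingHom.id_apply, ← mul_sum]
    rw [mul_sum]
    refine sum_congr rfl fun j _ => ?_
    ring

theorem lam_apply [Fintype S] (E : Fin (N + 1) → ℕ)
    (w : (j : Fin (N + 1)) → OQ (per j : FF N) S → K) :
    lam S K E w = ∑ j, (E j : K)⁻¹ * ∑ x, w j (oq (per j) x) := rfl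

theorem zc_pow_inv {c : FF N → S → K} (hc : c ∈ ZC N S K) {g : FF N} {e : ℕ}
    (he : ∀ x : S, g ^ e • x = x) (x : S) : c (g ^ e) (g • x) = c (g ^ e) x := by
  have h1 := hc (g ^ e) g x
  have h2 := hc g (g ^ e) x
  rw [he] at h2
  rw [← pow_succ] at h1
  rw [← pow_succ', h1] at h2
  have h3 : c (g ^ e) (g • x) + c g x = c (g ^ e) x + c g x := by
    rw [add_comm, h2]
  exact add_right_cancel h3

theorem range_TT [Fintype S] [MulAction.IsPretransitive (FF N) S] (E : Fin (N + 1) → ℕ)
    (hE : ∀ j (x : S), (per j ^ E j : FF N) • x = x) (hEK : ∀ j, (E j : K) ≠ 0) :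
    LinearMap.range (TT S K E) = (LinearMap.ker (lam S K E)).map (iot S K) := by
  apply le_antisymm
  · rintro _ ⟨c, rfl⟩
    have h1 : ∀ j : Fin (N + 1), ∃ w : OQ (per j : FF N) S → K, ∀ x,
        w (oq (per j) x) = c.1 (per j ^ E j) x := fun j =>
      exists_oq fun x => zc_pow_inv c.2 (hE j) x
    choose w hw using h1
    refine ⟨w, ?_, ?_⟩
    · rw [SetLike.mem_coe, LinearMap.mem_ker, lam_apply]
      simp only [hw, zc_total_pow c.2]
      rw [← zc_total_per c.2]
      refine sum_congr rfl fun j _ => ?_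
      rw [← mul_assoc, inv_mul_cancel₀ (hEK j), one_mul]
    · funext j x
      rw [iot_apply, TT_apply, hw]
  · rintro _ ⟨w, hw, rfl⟩
    rw [SetLike.mem_coe, LinearMap.mem_ker, lam_apply, Fin.sum_univ_castSucc] at hw
    obtain ⟨c, hc, hck⟩ := zc_exists (S := S) (K := K) (N := N)
      fun j x => (E j.castSucc : K)⁻¹ * w j.castSucc (oq (per j.castSucc) x)
    have hck' : ∀ (j : Fin N) (x : S), c (per j.castSucc) x =
        (E j.castSucc : K)⁻¹ * w j.castSucc (oq (per j.castSucc) x) := by
      intro j x
      have h := hck j x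
      rwa [← per_castSucc j] at h
    have hsum : ∀ (j : Fin (N + 1)) (a : FF N → S → K) (_ : a ∈ ZC N S K) (v : S → K)
        (_ : ∀ x, v (per j • x) = v x) (_ : ∀ x, a (per j) x = (E j : K)⁻¹ * v x) (x : S),
        a (per j ^ E j) x = v x := by
      intro j a ha v hv hav x
      rw [zc_pow ha]
      have h2 : ∀ r ∈ range (E j), a (per j) ((per j : FF N) ^ r • x) = (E j : K)⁻¹ * v x := by
        intro r _
        rw [hav, ← zpow_natCast, inv_zpow_smul hv]
      rw [sum_congr rfl h2, sum_const, card_range, nsmul_eq_mul, ← mul_assoc,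
        mul_inv_cancel₀ (hEK j), one_mul]
    have h3 : ∀ (j : Fin N) (x : S), c (per j.castSucc ^ E j.castSucc) x =
        w j.castSucc (oq (per j.castSucc) x) := by
      intro j x
      refine hsum j.castSucc c hc (fun x => w j.castSucc (oq (per j.castSucc) x)) ?_ ?_ x
      · intro x
        simp only [oq_smul]
      · intro x
        exact hck' j x
    let h : S → K := fun x => w (Fin.last N) (oq (per (Fin.last N)) x) -
      c (per (Fin.last N) ^ E (Fin.last N)) x
    have hinv : ∀ x, h (per (Fin.last N) • x) = h x := by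
      intro x
      simp only [h]
      rw [oq_smul, zc_pow_inv hc (hE (Fin.last N))]
    have htot : ∑ x, (E (Fin.last N) : K)⁻¹ * h x = 0 := by
      rw [← mul_sum]
      simp only [h]
      rw [sum_sub_distrib, mul_sub, zc_total_pow hc, ← mul_assoc _ _ (∑ x, c _ x),
        inv_mul_cancel₀ (hEK _), one_mul]
      have h4 := zc_total_per hc
      rw [Fin.sum_univ_castSucc] at h4
      have h5 : ∀ j : Fin N, (E j.castSucc : K)⁻¹ * ∑ x, w j.castSucc (oq (per j.castSucc) x) =
          ∑ x, c (per j.castSucc) x := by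
        intro j
        rw [mul_sum]
        refine sum_congr rfl fun x _ => ?_
        exact (hck' j x).symm
      rw [sum_congr rfl fun j _ => h5 j] at hw
      linear_combination hw - h4
    obtain ⟨c', hc', hc0, hcn⟩ := coch (M := K) (fun j : Fin N => E j.castSucc) (fun j x => by
      have := hE j.castSucc x
      rwa [per_castSucc] at this) (fun x : S => (E (Fin.last N) : K)⁻¹ * h x) (by
        intro x
        rw [MulAction.orbit_eq_univ]
        simp only [Set.mem_univ, finsum_true]
        rw [finsum_eq_sum_of_fintype]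
        exact htot)
    have hc'' : c' ∈ ZC N S K := hc'
    have h6 : ∀ x, c' (per (Fin.last N) ^ E (Fin.last N)) x = h x := by
      intro x
      refine hsum (Fin.last N) c' hc'' h hinv ?_ x
      intro x
      rw [per_last, hcn]
    refine ⟨⟨c, hc⟩ + ⟨c', hc''⟩, ?_⟩
    funext j x
    rw [iot_apply, map_add]
    change c (per j ^ E j) x + c' (per j ^ E j) x = _
    refine Fin.lastCases ?_ ?_ j
    · rw [h6]
      simp only [h]
      ring
    · intro i
      rw [h3]
      have h7 := hc0 i x
      rw [← per_castSucc i] at h7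
      rw [h7, add_zero]

theorem zc_rank [Fintype S] [MulAction.IsPretransitive (FF N) S] (E : Fin (N + 1) → ℕ)
    (hE : ∀ j (x : S), (per j ^ E j : FF N) • x = x) (hEK : ∀ j, (E j : K) ≠ 0)
    (hS : (Fintype.card S : K) ≠ 0) :
    Module.finrank K (LinearMap.ker (TT S K E)) +
      ∑ j : Fin (N + 1), Nat.card (OQ (per j : FF N) S) = N * Fintype.card S + 1 := by
  classical
  have hfin : ∀ j : Fin (N + 1), Fintype (OQ (per j : FF N) S) := fun j => Fintype.ofFinite _
  have h1 := LinearMap.finrank_range_add_finrank_ker (TT S K E)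
  rw [zc_finrank, range_TT E hE hEK,
    ← (Submodule.equivMapOfInjective (iot S K) iot_inj _).finrank_eq] at h1
  have h2 := LinearMap.finrank_range_add_finrank_ker (lam S K E)
  have h3 : Module.finrank K ((j : Fin (N + 1)) → OQ (per j : FF N) S → K) =
      ∑ j : Fin (N + 1), Nat.card (OQ (per j : FF N) S) := by
    rw [Module.finrank_pi_fintype]
    refine sum_congr rfl fun j _ => ?_
    rw [Module.finrank_fintype_fun_eq_card, Nat.card_eq_fintype_card]
  have h4 : LinearMap.range (lam S K E) = ⊤ := by
    rw [LinearMap.range_eq_top]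
    intro a
    let w : (j : Fin (N + 1)) → OQ (per j : FF N) S → K := fun j _ =>
      if j = 0 then a * (E 0 : K) * (Fintype.card S : K)⁻¹ else 0
    refine ⟨w, ?_⟩
    rw [lam_apply, Finset.sum_eq_single 0]
    · simp only [w, if_true, sum_const, card_univ, nsmul_eq_mul]
      have := hEK 0
      field_simp
    · intro j _ hj
      simp [w, hj]
    · intro h
      exact absurd (mem_univ _) h
  rw [h4, finrank_top, Module.finrank_self, h3] at h2
  omega

end Pool.MP_59b15d_al.Sym
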