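import Mathlib
import Pool.Agent.H.MP_59b15d_al.h94s.Fa2

set_option autoImplicit false

/-!
Comparison of the cocycles for `F / V` and for `F / A`, `A` generated by `V` and an element `d` which
acts trivially on the homomorphisms given by the cocycles.
-/

namespace Pool.MP_59b15d_al.Sym

open Finset

variable {N : ℕ} {K : Type*} [Field K]

/-- the base point -/
def bp (V : Subgroup (FF N)) : FF N ⧸ V := ((1 : FF N) : FF N ⧸ V)

theorem smul_mk (V : Subgroup (FF N)) (g h : FF N) :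
    g • (h : FF N ⧸ V) = ((g * h : FF N) : FF N ⧸ V) := rfl

theorem smul_bp (V : Subgroup (FF N)) (g : FF N) : g • bp V = (g : FF N ⧸ V) := by
  unfold bp
  rw [smul_mk, mul_one]

theorem exists_smul_bp (V : Subgroup (FF N)) (x : FF N ⧸ V) : ∃ g : FF N, g • bp V = x := by
  obtain ⟨g, rfl⟩ := QuotientGroup.mk_surjective x
  exact ⟨g, smul_bp V g⟩

theorem smul_bp_eq {V : Subgroup (FF N)} {g h : FF N} :
    g • bp V = h • bp V ↔ g⁻¹ * h ∈ V := by
  rw [smul_bp, smul_bp, QuotientGroup.eq]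

theorem triv_smul {V : Subgroup (FF N)} (hV : V.Normal) {v : FF N} (hv : v ∈ V) (x : FF N ⧸ V) :
    v • x = x := by
  obtain ⟨g, rfl⟩ := exists_smul_bp V x
  rw [← mul_smul, smul_bp_eq]
  have := hV.conj_mem v⁻¹ (V.inv_mem hv) g⁻¹
  rw [inv_inv] at this
  rw [mul_inv_rev]
  exact this

theorem mem_of_smul_bp {V : Subgroup (FF N)} {g : FF N} (h : g • bp V = bp V) : g ∈ V := by
  have h1 : g • bp V = (1 : FF N) • bp V := by rw [h, one_smul]
  rw [smul_bp_eq, mul_one] at h1
  exact (Subgroup.inv_mem_iff V).mp h1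

/-- If `[d, v]` is killed by the cocycle then `d` fixes the values at `v`. -/
theorem zc_comm {V : Subgroup (FF N)} (hV : V.Normal) {c : FF N → FF N ⧸ V → K}
    (hc : c ∈ ZC N (FF N ⧸ V) K) {d v : FF N} (hv : v ∈ V)
    (h : ∀ x, c (d * v * d⁻¹ * v⁻¹) x = 0) (x : FF N ⧸ V) : c v (d⁻¹ • x) = c v x := by
  have h1 := h x
  have hv' : v⁻¹ ∈ V := V.inv_mem hv
  rw [hc, triv_smul hV hv', zc_inv hc, triv_smul hV hv', hc (d * v) d⁻¹, hc d v,
    triv_smul hV hv, zc_inv hc d] at h1
  linear_combination h1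

/-- the difference of the values at two points, as a function on `F / V` -/
noncomputable def dif (V : Subgroup (FF N)) (K : Type*) [Field K] (d : FF N) :
    ZC N (FF N ⧸ V) K →ₗ[K] (FF N ⧸ V → K) where
  toFun c := fun x => c.1 (Quotient.out x) (d • bp V) - c.1 (Quotient.out x) (bp V)
  map_add' := by
    intro c c'
    funext x
    change c.1 _ _ + c'.1 _ _ - (c.1 _ _ + c'.1 _ _) = c.1 _ _ - c.1 _ _ + (c'.1 _ _ - c'.1 _ _)
    ring
  map_smul' := by
    intro a c
    funext x
    change a * c.1 _ _ - a * c.1 _ _ = a * (c.1 _ _ - c.1 _ _)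
    ring

theorem dif_apply {V : Subgroup (FF N)} (hV : V.Normal) {d : FF N} (c : ZC N (FF N ⧸ V) K)
    (h : ∀ v ∈ V, c.1 v (d • bp V) = c.1 v (bp V)) (g : FF N) :
    dif V K d c (g • bp V) = c.1 g (d • bp V) - c.1 g (bp V) := by
  change c.1 (Quotient.out (g • bp V)) (d • bp V) - c.1 (Quotient.out (g • bp V)) (bp V) = _
  obtain ⟨v, h1, h3⟩ : ∃ v ∈ V, Quotient.out (g • bp V) = g * v := by
    refine ⟨g⁻¹ * Quotient.out (g • bp V), ?_, by rw [mul_inv_cancel_left]⟩
    rw [← smul_bp_eq]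
    have h2 := QuotientGroup.out_eq' (g • bp V)
    rw [smul_bp V (Quotient.out (g • bp V))]
    exact h2.symm
  rw [h3, c.2 g v, c.2 g v, triv_smul hV h1, triv_smul hV h1, h v h1]
  ring

/-- the functions which vanish at the base point and have constant sums along `d` -/
def M0 (V : Subgroup (FF N)) (K : Type*) [Field K] (d : FF N) (n0 : ℕ) :
    Submodule K (FF N ⧸ V → K) where
  carrier := {m | m (bp V) = 0 ∧ ∀ g : FF N, ∑ i ∈ range n0, m ((g * d ^ i) • bp V) =
    ∑ i ∈ range n0, m ((d ^ i) • bp V)}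
  add_mem' := by
    rintro a b ⟨ha, ha'⟩ ⟨hb, hb'⟩
    refine ⟨?_, fun g => ?_⟩
    · change a _ + b _ = 0
      rw [ha, hb, add_zero]
    · simp only [Pi.add_apply, sum_add_distrib]
      rw [ha', hb']
  zero_mem' := by
    refine ⟨rfl, fun g => ?_⟩
    simp
  smul_mem' := by
    rintro t a ⟨ha, ha'⟩
    refine ⟨?_, fun g => ?_⟩
    · change t * a _ = 0
      rw [ha, mul_zero]
    · simp only [Pi.smul_apply, smul_eq_mul, ← mul_sum]
      rw [ha']

theorem dif_mem {V : Subgroup (FF N)} (hV : V.Normal) {d : FF N} {n0 : ℕ} (hn0 : d ^ n0 ∈ V)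
    (c : ZC N (FF N ⧸ V) K) (h : ∀ v ∈ V, c.1 v (d • bp V) = c.1 v (bp V)) :
    dif V K d c ∈ M0 V K d n0 := by
  constructor
  · have h1 := dif_apply hV c h 1
    rw [one_smul, zc_one c.2, zc_one c.2, sub_zero] at h1
    exact h1
  · intro g
    have h2 : ∀ i, dif V K d c ((g * d ^ i) • bp V) = dif V K d c ((d ^ i) • bp V) +
        (c.1 g (d ^ (i + 1) • bp V) - c.1 g (d ^ i • bp V)) := by
      intro i
      rw [dif_apply hV c h, dif_apply hV c h, c.2, c.2, ← mul_smul, ← pow_succ]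
      ring
    rw [sum_congr rfl fun i _ => h2 i, sum_add_distrib,
      sum_range_sub (fun i => c.1 g (d ^ i • bp V)), triv_smul hV hn0, pow_zero, one_smul, sub_self,
      add_zero]

/-- the projection `F / V → F / A` -/
def prj {V A : Subgroup (FF N)} (h : V ≤ A) : FF N ⧸ V → FF N ⧸ A := Subgroup.quotientMapOfLE h

theorem prj_bp {V A : Subgroup (FF N)} (h : V ≤ A) (g : FF N) :
    prj h (g • bp V) = g • bp A := rfl

theorem prj_smul {V A : Subgroup (FF N)} (h : V ≤ A) (g : FF N) (x : FF N ⧸ V) :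
    prj h (g • x) = g • prj h x := by
  obtain ⟨u, rfl⟩ := exists_smul_bp V x
  rw [← mul_smul, prj_bp, prj_bp, mul_smul]

theorem prj_surj {V A : Subgroup (FF N)} (h : V ≤ A) : Function.Surjective (prj h) := by
  intro x
  obtain ⟨u, rfl⟩ := exists_smul_bp A x
  exact ⟨u • bp V, rfl⟩

/-- pull-back of functions -/
def pbf {V A : Subgroup (FF N)} (h : V ≤ A) (K : Type*) [Field K] :
    (FF N ⧸ A → K) →ₗ[K] (FF N ⧸ V → K) where
  toFun u := fun x => u (prj h x)
  map_add' := fun _ _ => rfl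
  map_smul' := fun _ _ => rfl

theorem pbf_apply {V A : Subgroup (FF N)} (h : V ≤ A) (u : FF N ⧸ A → K) (x : FF N ⧸ V) :
    pbf h K u x = u (prj h x) := rfl

/-- pull-back of cocycles -/
def pbc {V A : Subgroup (FF N)} (h : V ≤ A) (K : Type*) [Field K] :
    ZC N (FF N ⧸ A) K →ₗ[K] ZC N (FF N ⧸ V) K where
  toFun c := ⟨fun g x => c.1 g (prj h x), by
    intro u v x
    change c.1 (u * v) (prj h x) = c.1 v (prj h x) + c.1 u (prj h (v • x))
    rw [prj_smul]
    exact c.2 u v (prj h x)⟩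
  map_add' := fun _ _ => rfl
  map_smul' := fun _ _ => rfl

theorem pbc_apply {V A : Subgroup (FF N)} (h : V ≤ A) (c : ZC N (FF N ⧸ A) K) (g : FF N)
    (x : FF N ⧸ V) : (pbc h K c).1 g x = c.1 g (prj h x) := rfl

theorem M0_disj {V A : Subgroup (FF N)} (h : V ≤ A) {d : FF N} (hd : d ∈ A) {n0 : ℕ}
    (hn : (n0 : K) ≠ 0) : Disjoint (M0 V K d n0) (LinearMap.range (pbf h K)) := by
  rw [Submodule.disjoint_def]
  rintro _ ⟨h0, hs⟩ ⟨u, rfl⟩
  funext x
  obtain ⟨g, rfl⟩ := exists_smul_bp V x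
  have h1 : ∀ (g : FF N) (i : ℕ), pbf h K u ((g * d ^ i) • bp V) = u (g • bp A) := by
    intro g i
    rw [pbf_apply, prj_bp]
    congr 1
    rw [smul_bp_eq, mul_inv_rev, mul_assoc, inv_mul_cancel, mul_one]
    exact A.inv_mem (A.pow_mem hd i)
  have h2 := hs g
  have h3 : ∀ i : ℕ, pbf h K u ((d ^ i) • bp V) = 0 := by
    intro i
    have h4 := h1 1 i
    rw [one_mul, one_smul] at h4
    rw [h4]
    exact h0
  rw [sum_congr rfl fun i _ => h1 g i, sum_congr rfl fun i _ => h3 i, sum_const, sum_const_zero,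
    card_range, nsmul_eq_mul] at h2
  change u (g • bp A) = 0
  exact (mul_eq_zero.mp h2).resolve_left hn

/-- Cocycles with vanishing difference come from `F / A`. -/
theorem zc_descend {V : Subgroup (FF N)} {d : FF N} (c : ZC N (FF N ⧸ V) K)
    (h : ∀ g, c.1 g (d • bp V) = c.1 g (bp V)) (hle : V ≤ V ⊔ Subgroup.zpowers d) :
    ∃ c' : ZC N (FF N ⧸ (V ⊔ Subgroup.zpowers d)) K, pbc hle K c' = c := by
  have h1 : ∀ a ∈ V ⊔ Subgroup.zpowers d, ∀ g u : FF N,
      c.1 g ((u * a) • bp V) = c.1 g (u • bp V) := by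
    let T : Subgroup (FF N) :=
      { carrier := {a | ∀ g u : FF N, c.1 g ((u * a) • bp V) = c.1 g (u • bp V)}
        mul_mem' := by
          intro a b ha hb g u
          rw [← mul_assoc, hb, ha]
        one_mem' := by
          intro g u
          rw [mul_one]
        inv_mem' := by
          intro a ha g u
          have := ha g (u * a⁻¹)
          rw [inv_mul_cancel_right] at this
          exact this.symm }
    have h2 : V ⊔ Subgroup.zpowers d ≤ T := by
      rw [sup_le_iff, Subgroup.zpowers_le]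
      constructor
      · intro v hv g u
        have h3 : (u * v) • bp V = u • bp V := by
          rw [smul_bp_eq, mul_inv_rev, mul_assoc, inv_mul_cancel, mul_one]
          exact V.inv_mem hv
        rw [h3]
      · intro g u
        have h3 := c.2 g u (d • bp V)
        have h4 := c.2 g u (bp V)
        rw [h, h] at h3
        rw [mul_smul]
        rw [h4] at h3
        exact (add_left_cancel h3).symm
    exact h2
  have h5 : ∀ (x y : FF N ⧸ V), prj hle x = prj hle y → ∀ g, c.1 g x = c.1 g y := by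
    intro x y hxy g
    obtain ⟨u, rfl⟩ := exists_smul_bp V x
    obtain ⟨w, rfl⟩ := exists_smul_bp V y
    rw [prj_bp, prj_bp, smul_bp_eq] at hxy
    have h6 := h1 _ hxy g u
    rw [mul_inv_cancel_left] at h6
    exact h6.symm
  choose r hr using prj_surj hle
  refine ⟨⟨fun g y => c.1 g (r y), ?_⟩, ?_⟩
  · intro u v y
    have h6 : c.1 u (r (v • y)) = c.1 u (v • r y) := by
      refine h5 _ _ ?_ u
      rw [hr, prj_smul, hr]
    change c.1 (u * v) (r y) = c.1 v (r y) + c.1 u (r (v • y))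
    rw [h6]
    exact c.2 u v (r y)
  · apply Subtype.ext
    funext g x
    change c.1 g (r (prj hle x)) = c.1 g x
    exact h5 _ _ (hr _) g

theorem zc_compare {V : Subgroup (FF N)} (hV : V.Normal) (hVf : V.FiniteIndex)
    (E : Fin (N + 1) → ℕ) (d : FF N) (n0 : ℕ) (hn0 : d ^ n0 ∈ V)
    (hn0K : (n0 : K) ≠ 0)
    (hd : ∀ c ∈ ZC N (FF N ⧸ V) K, (∀ j x, c (per j ^ E j) x = 0) →
      ∀ v ∈ V, c v (d • bp V) = c v (bp V)) (hle : V ≤ V ⊔ Subgroup.zpowers d) :
    Module.finrank K (LinearMap.ker (TT (FF N ⧸ V) K E)) +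
        Nat.card (FF N ⧸ (V ⊔ Subgroup.zpowers d)) ≤
      Module.finrank K (LinearMap.ker (TT (FF N ⧸ (V ⊔ Subgroup.zpowers d)) K E)) +
        Nat.card (FF N ⧸ V) := by
  classical
  have hf1 : Finite (FF N ⧸ V) := Subgroup.finite_quotient_of_finiteIndex
  have hf2 : Finite (FF N ⧸ (V ⊔ Subgroup.zpowers d)) := Finite.of_surjective _ (prj_surj hle)
  have hF1 : Fintype (FF N ⧸ V) := Fintype.ofFinite _
  have hF2 : Fintype (FF N ⧸ (V ⊔ Subgroup.zpowers d)) := Fintype.ofFinite _
  set W := LinearMap.ker (TT (FF N ⧸ V) K E) with hW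
  have hWc : ∀ c ∈ W, ∀ v ∈ V, c.1 v (d • bp V) = c.1 v (bp V) := by
    intro c hc v hv
    rw [hW, LinearMap.mem_ker] at hc
    exact hd c.1 c.2 (fun j x => congrFun (congrFun hc j) x) v hv
  have h1 := LinearMap.finrank_range_add_finrank_ker (K := K) (V := W) (V₂ := FF N ⧸ V → K)
    ((dif V K d).domRestrict W)
  have h2 : Module.finrank K (LinearMap.range ((dif V K d).domRestrict W)) ≤
      Module.finrank K (M0 V K d n0) := by
    apply Submodule.finrank_mono
    rintro _ ⟨c, rfl⟩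
    exact dif_mem hV hn0 c.1 (hWc c.1 c.2)
  have h3 := Submodule.finrank_add_finrank_le_of_disjoint
    (M0_disj (K := K) hle (Subgroup.mem_sup_right (Subgroup.mem_zpowers d)) hn0K)
  have h4 : Module.finrank K (LinearMap.range (pbf hle K)) =
      Nat.card (FF N ⧸ (V ⊔ Subgroup.zpowers d)) := by
    rw [LinearMap.finrank_range_of_inj, Module.finrank_fintype_fun_eq_card,
      Nat.card_eq_fintype_card]
    intro u u' h
    funext y
    obtain ⟨x, rfl⟩ := prj_surj hle y
    exact congrFun h x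
  rw [h4, Module.finrank_fintype_fun_eq_card, ← Nat.card_eq_fintype_card] at h3
  have h5 : (LinearMap.ker ((dif V K d).domRestrict W)).map W.subtype ≤
      (LinearMap.ker (TT (FF N ⧸ (V ⊔ Subgroup.zpowers d)) K E)).map (pbc hle K) := by
    rintro _ ⟨c, hc, rfl⟩
    rw [SetLike.mem_coe, LinearMap.mem_ker] at hc
    have hc' : dif V K d c.1 = 0 := hc
    have h6 : ∀ g, c.1.1 g (d • bp V) = c.1.1 g (bp V) := by
      intro g
      have h7 := dif_apply hV c.1 (hWc c.1 c.2) g
      rw [hc'] at h7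
      exact (sub_eq_zero.mp h7.symm)
    obtain ⟨c', hc''⟩ := zc_descend c.1 h6 hle
    refine ⟨c', ?_, hc''⟩
    rw [SetLike.mem_coe, LinearMap.mem_ker]
    funext j y
    obtain ⟨x, rfl⟩ := prj_surj hle y
    rw [TT_apply]
    have h8 : (pbc hle K c').1 (per j ^ E j) x = 0 := by
      rw [hc'']
      have h9 : TT (FF N ⧸ V) K E c.1 = 0 := LinearMap.mem_ker.mp c.2
      exact congrFun (congrFun h9 j) x
    exact h8
  have h6 : Module.finrank K (LinearMap.ker ((dif V K d).domRestrict W)) ≤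
      Module.finrank K (LinearMap.ker (TT (FF N ⧸ (V ⊔ Subgroup.zpowers d)) K E)) := by
    rw [(Submodule.equivMapOfInjective W.subtype W.injective_subtype _).finrank_eq]
    exact (Submodule.finrank_mono h5).trans (Submodule.finrank_map_le _ _)
  omega

end Pool.MP_59b15d_al.Sym
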