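import Mathlib
import Pool.Agent.H.MP_59b15d_al.h94s.Fa3

set_option autoImplicit false

/-!
Faithfulness of the action on the homology of the deck group.
-/

namespace Pool.MP_59b15d_al.Sym

open Finset

variable {N : ℕ} {K : Type*} [Field K]

/-- the action of the free group on `S × K` given by a cocycle -/
def zcHom {S : Type*} [MulAction (FF N) S] (c : FF N → S → K) (hc : c ∈ ZC N S K) :
    FF N →* Equiv.Perm (S × K) where
  toFun g :=
    { toFun := fun p => (g • p.1, p.2 + c g p.1)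
      invFun := fun p => (g⁻¹ • p.1, p.2 + c g⁻¹ p.1)
      left_inv := by
        rintro ⟨x, t⟩
        simp only [inv_smul_smul, Prod.mk.injEq, true_and]
        rw [zc_inv hc, inv_smul_smul]
        ring
      right_inv := by
        rintro ⟨x, t⟩
        simp only [smul_inv_smul, Prod.mk.injEq, true_and]
        rw [zc_inv hc]
        ring }
  map_one' := by
    ext ⟨x, t⟩
    · simp
    · simp [zc_one hc]
  map_mul' := by
    intro u v
    ext ⟨x, t⟩
    · simp [mul_smul]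
    · change t + c (u * v) x = t + c v x + c u (v • x)
      rw [hc]
      ring

theorem zcHom_apply {S : Type*} [MulAction (FF N) S] {c : FF N → S → K} (hc : c ∈ ZC N S K)
    (g : FF N) (p : S × K) : zcHom c hc g p = (g • p.1, p.2 + c g p.1) := rfl

/-- the elements of `V` killed by all cocycles of the given kind -/
def UU (V : Subgroup (FF N)) (_ : V.Normal) (K : Type*) [Field K] (E : Fin (N + 1) → ℕ) :
    Subgroup (FF N) where
  carrier := {g | g ∈ V ∧ ∀ c ∈ ZC N (FF N ⧸ V) K, (∀ j x, c (per j ^ E j) x = 0) →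
    ∀ x, c g x = 0}
  mul_mem' := by
    rintro u v ⟨hu, hu'⟩ ⟨hv, hv'⟩
    refine ⟨V.mul_mem hu hv, fun c hc h x => ?_⟩
    rw [hc, hu' c hc h, hv' c hc h, add_zero]
  one_mem' := ⟨V.one_mem, fun c hc _ x => zc_one hc x⟩
  inv_mem' := by
    rintro u ⟨hu, hu'⟩
    refine ⟨V.inv_mem hu, fun c hc h x => ?_⟩
    rw [zc_inv hc, hu' c hc h, neg_zero]

theorem UU_normal (V : Subgroup (FF N)) (hV : V.Normal) (E : Fin (N + 1) → ℕ) :
    (UU V hV K E).Normal := by
  constructor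
  rintro u ⟨hu, hu'⟩ g
  refine ⟨hV.conj_mem u hu g, fun c hc h x => ?_⟩
  rw [hc (g * u) g⁻¹, hc g u, triv_smul hV hu, hu' c hc h, zc_inv hc]
  ring

theorem UU_fin [Finite K] (V : Subgroup (FF N)) (hV : V.Normal) (hVf : V.FiniteIndex)
    (E : Fin (N + 1) → ℕ) : (UU V hV K E).FiniteIndex := by
  classical
  have hf1 : Finite (FF N ⧸ V) := Subgroup.finite_quotient_of_finiteIndex
  have hfz : Finite (ZC N (FF N ⧸ V) K) :=
    Finite.of_equiv _ (zcEquiv N (FF N ⧸ V) K).symm.toEquiv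
  let Ψ : FF N →* (ZC N (FF N ⧸ V) K → Equiv.Perm ((FF N ⧸ V) × K)) :=
    MonoidHom.pi fun c => zcHom c.1 c.2
  have hle : Ψ.ker ≤ UU V hV K E := by
    intro g hg
    rw [MonoidHom.mem_ker] at hg
    have h1 : ∀ c : ZC N (FF N ⧸ V) K, zcHom c.1 c.2 g = 1 := fun c => congrFun hg c
    constructor
    · have h2 := DFunLike.congr_fun (h1 0) (bp V, 0)
      rw [zcHom_apply] at h2
      exact mem_of_smul_bp (congrArg Prod.fst h2)
    · intro c hc _ x
      have h2 := DFunLike.congr_fun (h1 ⟨c, hc⟩) (x, 0)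
      rw [zcHom_apply, zero_add] at h2
      exact congrArg Prod.snd h2
  have hk : Ψ.ker.FiniteIndex := Subgroup.finiteIndex_ker Ψ
  exact Subgroup.finiteIndex_of_le hle

/-- (FAITH) in terms of all peripheral elements -/
theorem faith0 (hN : 4 ≤ N) (E : Fin (N + 1) → ℕ) (hE : ∀ j, 2 ≤ E j)
    (V : Subgroup (FF N)) (hV : V.Normal) (hVf : V.FiniteIndex)
    (h1 : ∀ j, per j ^ E j ∈ V) (o1 : ∀ (j : Fin (N + 1)) (k : ℕ), per j ^ k ∈ V → E j ∣ k) :
    ∃ U : Subgroup (FF N), U.Normal ∧ U.FiniteIndex ∧ U ≤ V ∧ (∀ j, per j ^ E j ∈ U) ∧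
      ∀ d : FF N, (∀ v ∈ V, d * v * d⁻¹ * v⁻¹ ∈ U) → d ∈ V := by
  classical
  have hf1 : Finite (FF N ⧸ V) := Subgroup.finite_quotient_of_finiteIndex
  have hF1 : Fintype (FF N ⧸ V) := Fintype.ofFinite _
  obtain ⟨ℓ, hℓ1, hℓ⟩ := Nat.exists_infinite_primes (Nat.card (FF N ⧸ V) + ∑ j, E j + 1)
  have hfact : Fact ℓ.Prime := ⟨hℓ⟩
  have hcast : ∀ k : ℕ, 0 < k → k < ℓ → (k : ZMod ℓ) ≠ 0 := by
    intro k hk hkl h
    rw [ZMod.natCast_eq_zero_iff] at h
    exact absurd (Nat.le_of_dvd hk h) (by omega)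
  have hElt : ∀ j, E j < ℓ := by
    intro j
    have := single_le_sum (f := E) (fun i _ => Nat.zero_le _) (mem_univ j)
    omega
  have hEK : ∀ j, (E j : ZMod ℓ) ≠ 0 := fun j => hcast _ (by have := hE j; omega) (hElt j)
  refine ⟨UU V hV (ZMod ℓ) E, UU_normal V hV E, UU_fin V hV hVf E, fun g hg => hg.1, ?_, ?_⟩
  · intro j
    exact ⟨h1 j, fun c hc h x => h j x⟩
  · intro d hd
    by_contra hdV
    have hle : V ≤ V ⊔ Subgroup.zpowers d := le_sup_left
    have hf2 : Finite (FF N ⧸ (V ⊔ Subgroup.zpowers d)) := Finite.of_surjective _ (prj_surj hle)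
    have hF2 : Fintype (FF N ⧸ (V ⊔ Subgroup.zpowers d)) := Fintype.ofFinite _
    -- the order of d
    have hn0 : d ^ Nat.card (FF N ⧸ V) ∈ V := by
      rw [← QuotientGroup.eq_one_iff]
      change (d : FF N ⧸ V) ^ Nat.card (FF N ⧸ V) = 1
      exact pow_card_eq_one'
    have hcard : 0 < Nat.card (FF N ⧸ V) := Nat.card_pos
    have hcmp := zc_compare (K := ZMod ℓ) hV hVf E d (Nat.card (FF N ⧸ V)) hn0
      (hcast _ hcard (by omega)) (by
        intro c hc h v hv
        have h2 := zc_comm hV hc hv (fun x => (hd v hv).2 c hc h x) (d • bp V)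
        rw [inv_smul_smul] at h2
        exact h2.symm) hle
    have hsmall : Nat.card (FF N ⧸ (V ⊔ Subgroup.zpowers d)) < Nat.card (FF N ⧸ V) := by
      rw [Nat.card_eq_fintype_card, Nat.card_eq_fintype_card]
      apply Fintype.card_lt_of_surjective_not_injective (prj hle) (prj_surj hle)
      intro hinj
      apply hdV
      apply mem_of_smul_bp
      apply hinj
      have h3 : d • bp (V ⊔ Subgroup.zpowers d) = (1 : FF N) • bp (V ⊔ Subgroup.zpowers d) := by
        rw [smul_bp_eq, mul_one]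
        exact Subgroup.inv_mem _ (Subgroup.mem_sup_right (Subgroup.mem_zpowers d))
      rw [prj_bp, h3, one_smul]
      have h4 := prj_bp hle (1 : FF N)
      rw [one_smul, one_smul] at h4
      exact h4.symm
    have hpos2 : 0 < Nat.card (FF N ⧸ (V ⊔ Subgroup.zpowers d)) := Nat.card_pos
    have ht1 : ∀ j (x : FF N ⧸ V), (per j ^ E j : FF N) • x = x := fun j x =>
      triv_smul hV (h1 j) x
    have ht2 : ∀ j (x : FF N ⧸ (V ⊔ Subgroup.zpowers d)), (per j ^ E j : FF N) • x = x := by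
      intro j y
      obtain ⟨x, rfl⟩ := prj_surj hle y
      rw [← prj_smul, ht1]
    have r1 := zc_rank (K := ZMod ℓ) (S := FF N ⧸ V) E ht1 hEK (by
      rw [← Nat.card_eq_fintype_card]
      exact hcast _ hcard (by omega))
    have r2 := zc_rank (K := ZMod ℓ) (S := FF N ⧸ (V ⊔ Subgroup.zpowers d)) E ht2 hEK (by
      rw [← Nat.card_eq_fintype_card]
      exact hcast _ hpos2 (by omega))
    rw [← Nat.card_eq_fintype_card] at r1 r2
    have b1 : ∀ j : Fin (N + 1), E j * Nat.card (OQ (per j : FF N) (FF N ⧸ V)) ≤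
        Nat.card (FF N ⧸ V) := by
      intro j
      rw [Nat.card_eq_fintype_card (α := FF N ⧸ V)]
      refine oq_le_card fun k x hk => ?_
      obtain ⟨g, rfl⟩ := exists_smul_bp V x
      have h3 : (per j : FF N) ^ k ∈ V := by
        rw [← mul_smul, smul_bp_eq, mul_inv_rev, mul_assoc] at hk
        have h4 := hV.conj_mem _ hk g
        rw [mul_inv_cancel_left, mul_inv_cancel_right] at h4
        exact (Subgroup.inv_mem_iff V).mp h4
      have h5 : (per j : FF N) ^ k.natAbs ∈ V := by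
        rcases Int.natAbs_eq k with h | h
        · rw [h, zpow_natCast] at h3
          exact h3
        · rw [h, zpow_neg, zpow_natCast] at h3
          exact (Subgroup.inv_mem_iff V).mp h3
      exact Int.natCast_dvd.mpr (o1 j _ h5)
    have b2 : ∀ j : Fin (N + 1), Nat.card (FF N ⧸ (V ⊔ Subgroup.zpowers d)) ≤
        E j * Nat.card (OQ (per j : FF N) (FF N ⧸ (V ⊔ Subgroup.zpowers d))) := by
      intro j
      rw [Nat.card_eq_fintype_card (α := FF N ⧸ (V ⊔ Subgroup.zpowers d))]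
      exact card_le_oq (by have := hE j; omega) (ht2 j)
    have b3 : ∀ j : Fin (N + 1),
        2 * (Nat.card (OQ (per j : FF N) (FF N ⧸ V)) : ℤ) ≤
        2 * (Nat.card (OQ (per j : FF N) (FF N ⧸ (V ⊔ Subgroup.zpowers d))) : ℤ) +
          ((Nat.card (FF N ⧸ V) : ℤ) - (Nat.card (FF N ⧸ (V ⊔ Subgroup.zpowers d)) : ℤ)) := by
      intro j
      have c1 : (E j : ℤ) * (Nat.card (OQ (per j : FF N) (FF N ⧸ V)) : ℤ) ≤
          (Nat.card (FF N ⧸ V) : ℤ) := by exact_mod_cast b1 j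
      have c2 : (Nat.card (FF N ⧸ (V ⊔ Subgroup.zpowers d)) : ℤ) ≤
          (E j : ℤ) * (Nat.card (OQ (per j : FF N) (FF N ⧸ (V ⊔ Subgroup.zpowers d))) : ℤ) := by
        exact_mod_cast b2 j
      have c3 : (2 : ℤ) ≤ E j := by exact_mod_cast hE j
      have c4 : (Nat.card (FF N ⧸ (V ⊔ Subgroup.zpowers d)) : ℤ) < (Nat.card (FF N ⧸ V) : ℤ) := by
        exact_mod_cast hsmall
      generalize (Nat.card (OQ (per j : FF N) (FF N ⧸ V)) : ℤ) = o at *
      generalize (Nat.card (OQ (per j : FF N) (FF N ⧸ (V ⊔ Subgroup.zpowers d))) : ℤ) = o' at *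
      generalize (Nat.card (FF N ⧸ V) : ℤ) = q at *
      generalize (Nat.card (FF N ⧸ (V ⊔ Subgroup.zpowers d)) : ℤ) = s at *
      by_cases hoo : o ≤ o'
      · linarith
      · have c5 : 0 ≤ o - o' := by linarith
        have c6 := mul_le_mul_of_nonneg_right c3 c5
        have c7 : (E j : ℤ) * (o - o') = (E j : ℤ) * o - (E j : ℤ) * o' := by ring
        rw [c7] at c6
        linarith
    have b4 := sum_le_sum fun (j : Fin (N + 1)) (_ : j ∈ univ) => b3 j
    rw [sum_add_distrib, ← mul_sum, ← mul_sum, sum_const, card_univ, Fintype.card_fin,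
      nsmul_eq_mul] at b4
    have e1 : (Module.finrank (ZMod ℓ) (LinearMap.ker (TT (FF N ⧸ V) (ZMod ℓ) E)) : ℤ) +
        ∑ j : Fin (N + 1), (Nat.card (OQ (per j : FF N) (FF N ⧸ V)) : ℤ) =
          N * (Nat.card (FF N ⧸ V) : ℤ) + 1 := by exact_mod_cast r1
    have e2 : (Module.finrank (ZMod ℓ)
        (LinearMap.ker (TT (FF N ⧸ (V ⊔ Subgroup.zpowers d)) (ZMod ℓ) E)) : ℤ) +
        ∑ j : Fin (N + 1), (Nat.card (OQ (per j : FF N) (FF N ⧸ (V ⊔ Subgroup.zpowers d))) : ℤ) =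
          N * (Nat.card (FF N ⧸ (V ⊔ Subgroup.zpowers d)) : ℤ) + 1 := by exact_mod_cast r2
    have e3 : (Module.finrank (ZMod ℓ) (LinearMap.ker (TT (FF N ⧸ V) (ZMod ℓ) E)) : ℤ) +
        (Nat.card (FF N ⧸ (V ⊔ Subgroup.zpowers d)) : ℤ) ≤
        (Module.finrank (ZMod ℓ)
          (LinearMap.ker (TT (FF N ⧸ (V ⊔ Subgroup.zpowers d)) (ZMod ℓ) E)) : ℤ) +
        (Nat.card (FF N ⧸ V) : ℤ) := by exact_mod_cast hcmp
    have e4 : (Nat.card (FF N ⧸ (V ⊔ Subgroup.zpowers d)) : ℤ) < (Nat.card (FF N ⧸ V) : ℤ) := by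
      exact_mod_cast hsmall
    have e5 : (4 : ℤ) ≤ N := by exact_mod_cast hN
    push_cast at b4
    generalize (Nat.card (FF N ⧸ V) : ℤ) = q at *
    generalize (Nat.card (FF N ⧸ (V ⊔ Subgroup.zpowers d)) : ℤ) = s at *
    have e6 : 0 ≤ ((N : ℤ) - 4) * (q - s) := mul_nonneg (by linarith) (by linarith)
    nlinarith

end Pool.MP_59b15d_al.Sym
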